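import Pool.Agent.Results.MP_4d5ce1_nt.EveryPoint
import Pool.Agent.W5h9.GC.Main

/-!
# From the inequality at every point to the property `GC.Good` of one point
-/

set_option autoImplicit false

namespace Pool.Agent.W5h18.EP

open Filter Matrix
open Pool.Agent.Results.MP_4d5ce1_nt.EveryPoint (Ball act)

lemma act_coprime (g : SpecialLinearGroup (Fin 2) ℤ) {x : ℤ × ℤ} (hx : IsCoprime x.1 x.2) :
    IsCoprime (act g x).1 (act g x).2 := by
  obtain ⟨u, v, h⟩ := hx
  have hd : g 0 0 * g 1 1 - g 0 1 * g 1 0 = 1 := by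
    have := g.det_coe
    rwa [Matrix.det_fin_two] at this
  refine ⟨u * g 1 1 - v * g 1 0, v * g 0 0 - u * g 0 1, ?_⟩
  unfold act
  linear_combination (u * x.1 + v * x.2) * hd + h

lemma hgt_nonneg (x : ℤ × ℤ) : 0 ≤ Pool.Agent.W5h9.GC.hgt x := Real.log_natCast_nonneg _

lemma hgt_act_le {D : ℕ} (hD : 1 ≤ D) {g : SpecialLinearGroup (Fin 2) ℤ} (hg : g ∈ Ball D)
    {x : ℤ × ℤ} (hx : IsCoprime x.1 x.2) :
    Pool.Agent.W5h9.GC.hgt (act g x) ≤ Real.log 2 + Pool.Agent.W5h9.GC.hgt x + Real.log D := by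
  have hz' := mem_Prs.1 (Pool.Agent.Results.MP_4d5ce1_nt.EveryPoint.rows_mem hg)
  have hnx : 1 ≤ nm x := by
    refine nm_pos ?_
    rintro rfl
    exact not_isCoprime_zero_zero hx
  have hnx0 : (0 : ℝ) < nm x := by exact_mod_cast hnx
  have hx0 : (0 : ℝ) < D := by exact_mod_cast hD
  have h1 : nm (act g x) ≤ 2 * nm x * D := by
    have e1 : act g x = (lf x.1 x.2 (Pool.Agent.Results.MP_4d5ce1_nt.EveryPoint.rows g).1,
        lf x.1 x.2 (Pool.Agent.Results.MP_4d5ce1_nt.EveryPoint.rows g).2) := by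
      unfold act lf Pool.Agent.Results.MP_4d5ce1_nt.EveryPoint.rows
      refine Prod.ext ?_ ?_ <;> simp only <;> ring
    rw [e1]
    have h2 := lf_le (a := x.1) (b := x.2) hz'.1
    have h3 := lf_le (a := x.1) (b := x.2) hz'.2.1
    exact max_le h2 h3
  have h4 : ((nm (act g x) : ℕ) : ℝ) ≤ 2 * nm x * D := by exact_mod_cast h1
  have h5 : Pool.Agent.W5h9.GC.hgt (act g x) = Real.log (nm (act g x)) := rfl
  have h5' : Pool.Agent.W5h9.GC.hgt x = Real.log (nm x) := rfl
  rw [h5, h5']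
  have h0 : 0 < nm (act g x) := by
    refine nm_pos ?_
    intro h
    have := act_coprime g hx
    rw [h] at this
    exact not_isCoprime_zero_zero this
  have h6 : (0 : ℝ) < nm (act g x) := by exact_mod_cast h0
  have h7 := Real.log_le_log h6 h4
  rwa [Real.log_mul (by positivity) hx0.ne', Real.log_mul (by norm_num) hnx0.ne'] at h7

/-- **The bridge.** For `0 ≤ A < 5` and every point `x` of height at most `D ^ A`, for all but a
proportion `D ^ (-δ)` of the matrices `g` the point `g x` has the property `GC.Good ε κ`, and its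
height is at least `D ^ κ`. -/
theorem bridge (A ε : ℝ) (hA : 0 ≤ A) (hA5 : A < 5) (hε : 0 < ε) (hε1 : ε ≤ 1) :
    ∃ δ κ : ℝ, 0 < δ ∧ 0 < κ ∧ ∀ᶠ D : ℕ in atTop,
      (Ball D).Finite ∧ (D : ℝ) ^ 2 / 2 ≤ ((Ball D).ncard : ℝ) ∧
      ∀ x : ℤ × ℤ, IsCoprime x.1 x.2 → Pool.Agent.W5h9.GC.hgt x ≤ A * Real.log D →
        (({g : SpecialLinearGroup (Fin 2) ℤ | g ∈ Ball D ∧
          ¬ (IsCoprime (act g x).1 (act g x).2 ∧
            κ * Real.log D < Pool.Agent.W5h9.GC.hgt (act g x) ∧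
            Pool.Agent.W5h9.GC.hgt (act g x) ≤ (A + 2) * Real.log D ∧
            Pool.Agent.W5h9.GC.Good ε κ (act g x))}.ncard : ℕ) : ℝ) ≤
          (D : ℝ) ^ (-δ) * (Ball D).ncard := by
  obtain ⟨δ, η, hδ, hη, h⟩ :=
    Pool.Agent.Results.MP_4d5ce1_nt.EveryPoint.result A ε hA hε hε1
  have hA2 : 0 < A + 2 := by linarith
  refine ⟨δ, η / (A + 2), hδ, by positivity, ?_⟩
  filter_upwards [h, eventually_ge_atTop 2] with D hD hD2
  obtain ⟨hfin, hcard, hmain⟩ := hD
  refine ⟨hfin, hcard, fun x hx hxA => ?_⟩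
  have hx2 : (2 : ℝ) ≤ D := by exact_mod_cast hD2
  have hL0 : 0 < Real.log D := Real.log_pos (by linarith)
  have hl2 : Real.log 2 ≤ Real.log D := Real.log_le_log (by norm_num) hx2
  have hκη : η / (A + 2) ≤ η := by
    rw [div_le_iff₀ hA2]
    nlinarith
  refine le_trans ?_ (hmain x hx hxA)
  have hsub : {g : SpecialLinearGroup (Fin 2) ℤ | g ∈ Ball D ∧
          ¬ (IsCoprime (act g x).1 (act g x).2 ∧
            η / (A + 2) * Real.log D < Pool.Agent.W5h9.GC.hgt (act g x) ∧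
            Pool.Agent.W5h9.GC.hgt (act g x) ≤ (A + 2) * Real.log D ∧
            Pool.Agent.W5h9.GC.Good ε (η / (A + 2)) (act g x))} ⊆
      {g : SpecialLinearGroup (Fin 2) ℤ | g ∈ Ball D ∧
          ¬ Pool.Agent.Results.MP_4d5ce1_nt.EveryPoint.Good ε η A D (act g x)} := by
    rintro g ⟨hgB, hnot⟩
    refine ⟨hgB, fun hgood => hnot ?_⟩
    have hc := act_coprime g hx
    have hup : Pool.Agent.W5h9.GC.hgt (act g x) ≤ (A + 2) * Real.log D := by
      have h1 := hgt_act_le (by omega : 1 ≤ D) hgB hx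
      have h2 : (A + 2) * Real.log D = A * Real.log D + 2 * Real.log D := by ring
      rw [h2]
      linarith
    have hone : ∀ (β : ℤ × ℤ) (T : Finset ℕ), IsCoprime β.1 β.2 →
        Pool.Agent.W5h9.GC.hgt β ≤ η * Real.log D →
        ∑ p ∈ T, Real.log (p : ℝ) ≤ η * Real.log D →
        (act g x).1 * β.2 - (act g x).2 * β.1 ≠ 0 ∧
          (1 - ε) * Pool.Agent.W5h9.GC.hgt (act g x) ≤ Pool.Agent.W5h9.GC.N1 β T (act g x) := by
      intro β T hβ1 hβ2 hT
      obtain ⟨g1, -, g3, -⟩ := hgood 1 (fun _ => β) T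
        ⟨fun _ => ⟨hβ1, hβ2⟩, fun i j hij => absurd (Subsingleton.elim i j) hij, hT⟩
      refine ⟨g1 0, ?_⟩
      have h3 := g3 hA5
      unfold Pool.Agent.Results.MP_4d5ce1_nt.EveryPoint.N1 at h3
      simp only [Finset.univ_unique, Finset.sum_singleton, Nat.cast_one, mul_one] at h3
      exact h3
    have hlow : η * Real.log D < Pool.Agent.W5h9.GC.hgt (act g x) := by
      by_contra hcon
      push Not at hcon
      have h1 := (hone (act g x) ∅ hc hcon (by
        rw [Finset.sum_empty]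
        positivity)).1
      apply h1
      ring
    refine ⟨hc, ?_, hup, ?_⟩
    · exact lt_of_le_of_lt (mul_le_mul_of_nonneg_right hκη hL0.le) hlow
    · intro q α T hα hTp hT
      have hk : η / (A + 2) * Pool.Agent.W5h9.GC.hgt (act g x) ≤ η * Real.log D := by
        calc η / (A + 2) * Pool.Agent.W5h9.GC.hgt (act g x) ≤
            η / (A + 2) * ((A + 2) * Real.log D) := mul_le_mul_of_nonneg_left hup (by positivity)
          _ = η * Real.log D := by field_simp
      have hi : ∀ i, (act g x).1 * (α i).2 - (act g x).2 * (α i).1 ≠ 0 ∧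
          (1 - ε) * Pool.Agent.W5h9.GC.hgt (act g x) ≤
            Pool.Agent.W5h9.GC.N1 (α i) T (act g x) := fun i =>
        hone (α i) T (hα i).1 ((hα i).2.trans hk) (hT.trans hk)
      refine ⟨fun i => (hi i).1, ?_⟩
      calc (1 - ε) * q * Pool.Agent.W5h9.GC.hgt (act g x) =
          ∑ _i : Fin q, (1 - ε) * Pool.Agent.W5h9.GC.hgt (act g x) := by
            rw [Finset.sum_const, Finset.card_univ, Fintype.card_fin, nsmul_eq_mul]
            ring
        _ ≤ _ := Finset.sum_le_sum fun i _ => (hi i).2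
  exact_mod_cast Set.ncard_le_ncard hsub (hfin.subset fun g hg => hg.1)

end Pool.Agent.W5h18.EP
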