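import Pool.Agent.W5h18.EP.Energy

/-!
# Integers without square divisors of medium size
-/

set_option autoImplicit false

namespace Pool.Agent.W5h18.EP

open Finset

/-- the product of the primes dividing `n` -/
def rad (n : ℕ) : ℕ := ∏ p ∈ n.primeFactors, p

lemma rad_pos (n : ℕ) : 0 < rad n :=
  Finset.prod_pos fun _ hp => (Nat.prime_of_mem_primeFactors hp).pos

lemma rad_dvd_rad {m n : ℕ} (h : m ∣ n) (hn : n ≠ 0) : rad m ∣ rad n :=
  Finset.prod_dvd_prod_of_subset _ _ _ (Nat.primeFactors_mono h hn)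

lemma squarefree_dvd_rad {s n : ℕ} (hs : Squarefree s) (h : s ∣ n) (hn : n ≠ 0) : s ∣ rad n := by
  have h1 : rad s = s := Nat.prod_primeFactors_of_squarefree hs
  rw [← h1]
  exact rad_dvd_rad h hn

lemma log_rad (n : ℕ) : Real.log (rad n) = ∑ p ∈ n.primeFactors, Real.log (p : ℝ) := by
  unfold rad
  push_cast
  rw [Real.log_prod]
  intro p hp
  exact_mod_cast (Nat.prime_of_mem_primeFactors hp).ne_zero

/-- no square divisors `e ^ 2` with `E ≤ e ≤ Q` -/
def NS (E Q n : ℕ) : Prop := ∀ e : ℕ, e ^ 2 ∣ n → e < E ∨ Q < e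

lemma big_prime {E Q e : ℕ} (hE : 1 ≤ E) (hEQ : E ^ 2 ≤ Q) (hQe : Q < e)
    (h : ∀ d : ℕ, d ∣ e → d < E ∨ Q < d) : ∃ p : ℕ, p.Prime ∧ Q < p ∧ p ∣ e := by
  classical
  by_contra hno
  push Not at hno
  have he : 0 < e := by omega
  have hEe : E ≤ e := by nlinarith
  have hex : ∃ d, d ∣ e ∧ E ≤ d := ⟨e, dvd_rfl, hEe⟩
  obtain ⟨hd1, hd2⟩ := Nat.find_spec hex
  set d := Nat.find hex with hd
  have hdQ : Q < d := by
    rcases h d hd1 with h1 | h1
    · omega
    · exact h1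
  have hd2' : 2 ≤ d := by nlinarith
  obtain ⟨p, hp, hpd⟩ := Nat.exists_prime_and_dvd (by omega : d ≠ 1)
  obtain ⟨c, hc⟩ := hpd
  have hpQ : p < E := by
    rcases h p ((Dvd.intro c hc.symm).trans hd1) with h1 | h1
    · exact h1
    · exact absurd ((Dvd.intro c hc.symm).trans hd1) (hno p hp h1)
  have hc0 : 0 < c := by
    rcases Nat.eq_zero_or_pos c with h0 | h0
    · rw [h0, mul_zero] at hc; omega
    · exact h0
  have hcd : c < d := by
    rw [hc]
    have := hp.two_le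
    nlinarith
  have hcE : c < E := by
    by_contra hge
    push Not at hge
    exact Nat.find_min hex hcd ⟨(Dvd.intro_left p hc.symm).trans hd1, hge⟩
  have : d < E * E := by
    rw [hc]
    exact Nat.mul_lt_mul_of_lt_of_le hpQ hcE.le (by omega)
  nlinarith

/-- either the radical is large or a large prime divides twice -/
lemma struct1 {E Q n : ℕ} (hE : 1 ≤ E) (hEQ : E ^ 2 ≤ Q) (hn : n ≠ 0) (h : NS E Q n) :
    n ≤ rad n * E ^ 2 ∨ ∃ p : ℕ, p.Prime ∧ Q < p ∧ p ^ 2 ∣ n := by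
  obtain ⟨s, e, h1, hs⟩ := Nat.sq_mul_squarefree n
  rcases h e ⟨s, h1.symm⟩ with h2 | h2
  · left
    have h3 : s ≤ rad n :=
      Nat.le_of_dvd (rad_pos n) (squarefree_dvd_rad hs ⟨e ^ 2, by rw [← h1]; ring⟩ hn)
    calc n = e ^ 2 * s := h1.symm
      _ ≤ E ^ 2 * rad n := Nat.mul_le_mul (Nat.pow_le_pow_left h2.le 2) h3
      _ = _ := by ring
  · right
    obtain ⟨p, hp, hpQ, hpe⟩ := big_prime hE hEQ h2 (fun d hd => h d
      ((pow_dvd_pow_of_dvd hd 2).trans ⟨s, h1.symm⟩))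
    exact ⟨p, hp, hpQ, (pow_dvd_pow_of_dvd hpe 2).trans ⟨s, h1.symm⟩⟩

/-- the three possibilities -/
lemma struct2 {E Q n : ℕ} (hE : 1 ≤ E) (hEQ : E ^ 2 ≤ Q) (hn : n ≠ 0) (h : NS E Q n) :
    n ≤ rad n * E ^ 2 ∨ Q ^ 2 ≤ rad n ∨
      ∃ m p j : ℕ, p.Prime ∧ Q < p ∧ 2 ≤ j ∧ m ≠ 0 ∧ n = m * p ^ j ∧ m * p ≤ rad n * E ^ 2 := by
  rcases struct1 hE hEQ hn h with h1 | ⟨p, hp, hpQ, hpn⟩
  · exact Or.inl h1
  right
  by_cases h2 : ∃ p' : ℕ, p'.Prime ∧ Q < p' ∧ p' ∣ n ∧ p' ≠ p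
  · left
    obtain ⟨p', hp', hpQ', hpn', hne⟩ := h2
    have h3 : p' * p ∣ rad n := by
      have hpp : p ∣ n := (dvd_pow_self p two_ne_zero).trans hpn
      refine Nat.Coprime.mul_dvd_of_dvd_of_dvd ((Nat.coprime_primes hp' hp).2 hne) ?_ ?_
      · exact Finset.dvd_prod_of_mem _ (Nat.mem_primeFactors.2 ⟨hp', hpn', hn⟩)
      · exact Finset.dvd_prod_of_mem _ (Nat.mem_primeFactors.2 ⟨hp, hpp, hn⟩)
    have h4 := Nat.le_of_dvd (rad_pos n) h3
    calc Q ^ 2 = Q * Q := sq Q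
      _ ≤ p' * p := Nat.mul_le_mul hpQ'.le hpQ.le
      _ ≤ rad n := h4
  · right
    push Not at h2
    obtain ⟨j, m, hpm, hnm⟩ := Nat.exists_eq_pow_mul_and_not_dvd hn p hp.ne_one
    have hj : 2 ≤ j := by
      by_contra hlt
      push Not at hlt
      have h5 : p ^ 2 ∣ p ^ j * m := by rw [← hnm]; exact hpn
      have h6 : j = 0 ∨ j = 1 := by omega
      rcases h6 with rfl | rfl
      · rw [pow_zero, one_mul] at h5
        exact hpm ((dvd_pow_self p two_ne_zero).trans h5)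
      · rw [pow_one, sq] at h5
        exact hpm (Nat.dvd_of_mul_dvd_mul_left hp.pos h5)
    have hm0 : m ≠ 0 := by
      rintro rfl
      exact hpm (dvd_zero _)
    have hmn : m ∣ n := ⟨p ^ j, by rw [hnm]; ring⟩
    have hNSm : NS E Q m := fun e he => h e (he.trans hmn)
    have hmrad : m ≤ rad m * E ^ 2 := by
      rcases struct1 hE hEQ hm0 hNSm with h7 | ⟨p', hp', hpQ', hpm'⟩
      · exact h7
      · exfalso
        have h8 : p' ∣ m := (dvd_pow_self p' two_ne_zero).trans hpm'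
        have h9 := h2 p' hp' hpQ' (h8.trans hmn)
        rw [h9] at h8
        exact hpm h8
    have hradmul : rad m * p ≤ rad n := by
      refine Nat.le_of_dvd (rad_pos n) ?_
      have hcop : Nat.Coprime (rad m) p := by
        rw [Nat.coprime_comm, hp.coprime_iff_not_dvd]
        intro hd
        have h10 := (Prime.dvd_finsetProd_iff (Nat.prime_iff.1 hp) _).1 hd
        obtain ⟨r, hr, hpr⟩ := h10
        have h11 : p = r :=
          (Nat.prime_dvd_prime_iff_eq hp (Nat.prime_of_mem_primeFactors hr)).1 hpr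
        rw [← h11] at hr
        exact hpm (Nat.dvd_of_mem_primeFactors hr)
      refine Nat.Coprime.mul_dvd_of_dvd_of_dvd hcop (rad_dvd_rad hmn hn) ?_
      refine Finset.dvd_prod_of_mem _ (Nat.mem_primeFactors.2 ⟨hp, ?_, hn⟩)
      exact (dvd_pow_self p two_ne_zero).trans hpn
    refine ⟨m, p, j, hp, hpQ, hj, hm0, by rw [hnm]; ring, ?_⟩
    calc m * p ≤ rad m * E ^ 2 * p := Nat.mul_le_mul_right _ hmrad
      _ = rad m * p * E ^ 2 := by ring
      _ ≤ rad n * E ^ 2 := Nat.mul_le_mul_right _ hradmul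

end Pool.Agent.W5h18.EP
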