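import Pool.Agent.W5h18.EP.Single
import Pool.Agent.W5h18.EP.Div

/-!
# The asymptotic statement for one linear form
-/

set_option autoImplicit false

namespace Pool.Agent.W5h18.EP

open Finset Filter

lemma ev_const (c κ : ℝ) (hκ : 0 < κ) : ∀ᶠ D : ℕ in atTop, c ≤ (D : ℝ) ^ κ := by
  have h1 : Tendsto (fun D : ℕ => (D : ℝ) ^ κ) atTop atTop :=
    (tendsto_rpow_atTop hκ).comp tendsto_natCast_atTop_atTop
  exact h1.eventually_ge_atTop c

lemma ev_log (c κ : ℝ) (hκ : 0 < κ) : ∀ᶠ D : ℕ in atTop, c * Real.log D + 1 ≤ (D : ℝ) ^ κ := by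
  have h1 : Tendsto (fun x : ℝ => Real.log x / x ^ κ) atTop (nhds 0) :=
    (isLittleO_log_rpow_atTop hκ).tendsto_div_nhds_zero
  have h2 : Tendsto (fun D : ℕ => Real.log (D : ℝ) / (D : ℝ) ^ κ) atTop (nhds 0) :=
    h1.comp tendsto_natCast_atTop_atTop
  have h3 : ∀ᶠ D : ℕ in atTop, Real.log (D : ℝ) / (D : ℝ) ^ κ < 1 / (2 * (|c| + 1)) :=
    h2.eventually_lt_const (by positivity)
  filter_upwards [h3, ev_const 2 κ hκ, eventually_ge_atTop 1] with D h4 h5 h6
  have h7 : (0 : ℝ) < (D : ℝ) ^ κ := by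
    have : (0 : ℝ) < D := by exact_mod_cast h6
    positivity
  have h8 : 0 ≤ Real.log (D : ℝ) := Real.log_natCast_nonneg D
  rw [div_lt_iff₀ h7] at h4
  have h9 : c * Real.log D ≤ (|c| + 1) * Real.log D :=
    mul_le_mul_of_nonneg_right (by linarith [le_abs_self c]) h8
  have h10 : (|c| + 1) * Real.log D ≤ (|c| + 1) * (1 / (2 * (|c| + 1)) * (D : ℝ) ^ κ) :=
    mul_le_mul_of_nonneg_left h4.le (by positivity)
  have h11 : (|c| + 1) * (1 / (2 * (|c| + 1)) * (D : ℝ) ^ κ) = (D : ℝ) ^ κ / 2 := by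
    have : |c| + 1 ≠ 0 := by positivity
    field_simp
  linarith

lemma lf_le {a b : ℤ} {w : ℤ × ℤ} {E : ℕ} (hw : nm w ≤ E) :
    (lf a b w).natAbs ≤ 2 * nm (a, b) * E := by
  have h6 : (lf a b w).natAbs ≤ (a * w.1).natAbs + (b * w.2).natAbs := by
    unfold lf
    exact Int.natAbs_add_le _ _
  have h7 : (a * w.1).natAbs ≤ nm (a, b) * E := by
    rw [Int.natAbs_mul]
    refine Nat.mul_le_mul (le_max_left _ _) ?_
    unfold nm at hw
    omega
  have h8 : (b * w.2).natAbs ≤ nm (a, b) * E := by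
    rw [Int.natAbs_mul]
    refine Nat.mul_le_mul (le_max_right _ _) ?_
    unfold nm at hw
    omega
  calc (lf a b w).natAbs ≤ nm (a, b) * E + nm (a, b) * E := by omega
    _ = _ := by ring

/-- **The statement for one linear form.** -/
theorem single (A ε : ℝ) (hA : 0 ≤ A) (hε : 0 < ε) (hε1 : ε ≤ 1 / 10) :
    ∀ᶠ D : ℕ in atTop, ∀ a b : ℤ, IsCoprime a b → (nm (a, b) : ℝ) ≤ (D : ℝ) ^ A →
      ∃ X : Finset (ℤ × ℤ), (X.card : ℝ) ≤ (D : ℝ) ^ (2 - ε / 8) ∧
        ∀ v : ℤ × ℤ, nm v ≤ D → Int.gcd v.1 v.2 = 1 → v ∉ X →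
          lf a b v ≠ 0 ∧
          Real.log (nm (a, b)) + (1 - 2 * ε) * Real.log D ≤ Real.log (lf a b v).natAbs ∧
          min (Real.log (lf a b v).natAbs) (4 * Real.log D) - 8 * ε * Real.log D ≤
            Real.log (rad (lf a b v).natAbs) ∧
          (A + 4 * ε ≤ 5 → Real.log (lf a b v).natAbs - 8 * ε * Real.log D ≤
            Real.log (rad (lf a b v).natAbs)) := by
  classical
  obtain ⟨C, hC, hdiv⟩ := divisor_bound (ε / (16 * (A + 3))) (by positivity)
  have hε4 : 0 < ε / 4 := by positivity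
  have hε16 : 0 < ε / 16 := by positivity
  filter_upwards [ev_const (52 + 20 * C) (ε / 4) hε4, ev_const 16 ε hε,
    ev_const 16 1 one_pos, ev_log ((A + 2) / Real.log 2) (ε / 16) hε16, eventually_ge_atTop 2] with
    D hD1 hD2 hD3 hD4 hD5
  intro a b hab hnm
  rw [Real.rpow_one] at hD3
  have hx0 : (0 : ℝ) < D := by linarith
  have hx1 : (1 : ℝ) ≤ D := by linarith
  have hL0 : 0 ≤ Real.log D := Real.log_nonneg hx1
  have hHpos : 1 ≤ nm (a, b) := by
    refine nm_pos ?_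
    intro h
    simp only [Prod.mk_eq_zero] at h
    rw [h.1, h.2] at hab
    exact not_isCoprime_zero_zero hab
  have hHR : (1 : ℝ) ≤ nm (a, b) := by exact_mod_cast hHpos
  -- powers of `D`
  have hxe : (1 : ℝ) ≤ (D : ℝ) ^ ε := by linarith
  have hx2e : (0 : ℝ) < (D : ℝ) ^ (2 - ε) := by positivity
  have hmono : ∀ s t : ℝ, s ≤ t → (D : ℝ) ^ s ≤ (D : ℝ) ^ t := fun s t h =>
    Real.rpow_le_rpow_of_exponent_le hx1 h
  have hadd : ∀ s t : ℝ, (D : ℝ) ^ s * (D : ℝ) ^ t = (D : ℝ) ^ (s + t) := fun s t =>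
    (Real.rpow_add hx0 s t).symm
  set E : ℕ := ⌈(D : ℝ) ^ ε⌉₊ with hE
  have hEge : (D : ℝ) ^ ε ≤ E := Nat.le_ceil _
  have hEle : (E : ℝ) ≤ 2 * (D : ℝ) ^ ε := by
    have := (Nat.ceil_lt_add_one (by positivity : 0 ≤ (D : ℝ) ^ ε)).le
    rw [← hE] at this
    linarith
  have hE1 : 1 ≤ E := by
    have : (1 : ℝ) ≤ E := hxe.trans hEge
    exact_mod_cast this
  set Q : ℕ := ⌊(D : ℝ) ^ (2 - ε)⌋₊ with hQ
  have hQle : (Q : ℝ) ≤ (D : ℝ) ^ (2 - ε) := Nat.floor_le hx2e.le
  have hQgt : (D : ℝ) ^ (2 - ε) - 1 < Q := by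
    have := Nat.lt_floor_add_one ((D : ℝ) ^ (2 - ε))
    rw [← hQ] at this
    linarith
  have h16 : (16 : ℝ) ≤ (D : ℝ) ^ (2 - ε) := by
    have h1 : (D : ℝ) ^ (1 : ℝ) ≤ (D : ℝ) ^ (2 - ε) := hmono _ _ (by linarith)
    rw [Real.rpow_one] at h1
    linarith
  have hQge : (D : ℝ) ^ (2 - ε) / 2 ≤ Q := by linarith
  have hEQ : E ^ 2 ≤ Q := by
    have h1 : (E : ℝ) ^ 2 ≤ 4 * (D : ℝ) ^ (2 * ε) := by
      calc (E : ℝ) ^ 2 ≤ (2 * (D : ℝ) ^ ε) ^ 2 := pow_le_pow_left₀ (by positivity) hEle 2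
        _ = 4 * ((D : ℝ) ^ ε * (D : ℝ) ^ ε) := by ring
        _ = 4 * (D : ℝ) ^ (2 * ε) := by rw [hadd]; congr 2; ring
    have h2 : (D : ℝ) ^ (2 * ε) * 16 ≤ (D : ℝ) ^ (2 - ε) := by
      have h3 : (D : ℝ) ^ (2 * ε) * (D : ℝ) ^ (1 : ℝ) ≤ (D : ℝ) ^ (2 - ε) := by
        rw [hadd]; exact hmono _ _ (by linarith)
      rw [Real.rpow_one] at h3
      have h4 : (0 : ℝ) < (D : ℝ) ^ (2 * ε) := by positivity
      nlinarith
    have h5 : ((E ^ 2 : ℕ) : ℝ) ≤ Q := by
      push_cast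
      linarith
    exact_mod_cast h5
  have hDQ : 2 * D ≤ Q := by
    have h2 : (D : ℝ) * 4 ≤ (D : ℝ) ^ (2 - ε) := by
      have h3 : (D : ℝ) ^ (1 : ℝ) * (D : ℝ) ^ ε ≤ (D : ℝ) ^ (2 - ε) := by
        rw [hadd]; exact hmono _ _ (by linarith)
      rw [Real.rpow_one] at h3
      nlinarith
    have h5 : ((2 * D : ℕ) : ℝ) ≤ Q := by
      push_cast
      linarith
    exact_mod_cast h5
  -- the number of exponents
  set J : ℕ := ⌊(A + 2) * Real.log D / Real.log 2⌋₊ + 1 with hJ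
  have hlog2 : 0 < Real.log 2 := Real.log_pos (by norm_num)
  have hJR : (J : ℝ) ≤ (D : ℝ) ^ (ε / 16) := by
    have h1 : (⌊(A + 2) * Real.log D / Real.log 2⌋₊ : ℝ) ≤ (A + 2) * Real.log D / Real.log 2 :=
      Nat.floor_le (by positivity)
    rw [hJ]
    push_cast
    have h2 : (A + 2) * Real.log D / Real.log 2 = (A + 2) / Real.log 2 * Real.log D := by ring
    linarith
  have hJ2 : 2 * nm (a, b) * D < 2 ^ J := by
    have h1 : (A + 2) * Real.log D / Real.log 2 < J := by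
      rw [hJ]
      push_cast
      exact Nat.lt_floor_add_one _
    have h2 : (A + 2) * Real.log D < J * Real.log 2 := by
      rwa [div_lt_iff₀ hlog2] at h1
    have h3 : (D : ℝ) ^ (A + 2) < (2 : ℝ) ^ J := by
      have e1 : (D : ℝ) ^ (A + 2) = Real.exp ((A + 2) * Real.log D) := by
        rw [Real.rpow_def_of_pos hx0]; congr 1; ring
      have e2 : (2 : ℝ) ^ J = Real.exp (J * Real.log 2) := by
        rw [← Real.rpow_natCast, Real.rpow_def_of_pos (by norm_num)]; congr 1; ring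
      rw [e1, e2]
      exact Real.exp_lt_exp.2 h2
    have h4 : (2 : ℝ) * nm (a, b) * D ≤ (D : ℝ) ^ (A + 2) := by
      have h5 : (D : ℝ) ^ (A + 2) = (D : ℝ) ^ A * (D * D) := by
        rw [Real.rpow_add hx0]
        congr 1
        rw [show (2 : ℝ) = ((2 : ℕ) : ℝ) by norm_num, Real.rpow_natCast]
        ring
      rw [h5]
      have h6 : 0 < (D : ℝ) ^ A := by positivity
      have h7 : (2 : ℝ) * nm (a, b) * D = nm (a, b) * (2 * D) := by ring
      rw [h7]
      refine mul_le_mul hnm ?_ (by positivity) h6.le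
      nlinarith
    have h8 : (2 : ℝ) * nm (a, b) * D < (2 : ℝ) ^ J := lt_of_le_of_lt h4 h3
    exact_mod_cast h8
  -- the divisor bound
  set τ : ℕ := ⌊C * (D : ℝ) ^ (ε / 16)⌋₊ with hτ
  have hτle : (τ : ℝ) ≤ C * (D : ℝ) ^ (ε / 16) := Nat.floor_le (by positivity)
  have hτb : 2 * D < nm (a, b) → ∀ w : ℤ × ℤ, nm w ≤ 2 * D → w ≠ 0 →
      (lf a b w).natAbs.divisors.card ≤ τ := by
    intro hH w hw hw0
    have h1 : (lf a b w).natAbs ≠ 0 := Int.natAbs_ne_zero.2 (lf_ne_zero hab hH hw hw0)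
    have h2 := hdiv _ h1
    have h3 : ((lf a b w).natAbs : ℝ) ≤ (D : ℝ) ^ (A + 3) := by
      have h4 : ((lf a b w).natAbs : ℝ) ≤ 2 * nm (a, b) * (2 * D) := by
        exact_mod_cast lf_le hw
      have h5 : (D : ℝ) ^ (A + 3) = (D : ℝ) ^ A * (D * D * D) := by
        rw [Real.rpow_add hx0]
        congr 1
        rw [show (3 : ℝ) = ((3 : ℕ) : ℝ) by norm_num, Real.rpow_natCast]
        ring
      rw [h5]
      refine h4.trans ?_
      have h7 : (2 : ℝ) * nm (a, b) * (2 * D) = nm (a, b) * (4 * D) := by ring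
      rw [h7]
      refine mul_le_mul hnm ?_ (by positivity) (by positivity)
      nlinarith
    rw [hτ]
    refine Nat.le_floor (h2.trans ?_)
    refine mul_le_mul_of_nonneg_left ?_ hC.le
    calc ((lf a b w).natAbs : ℝ) ^ (ε / (16 * (A + 3))) ≤
        ((D : ℝ) ^ (A + 3)) ^ (ε / (16 * (A + 3))) :=
          Real.rpow_le_rpow (Nat.cast_nonneg _) h3 (by positivity)
      _ = (D : ℝ) ^ (ε / 16) := by
          rw [← Real.rpow_mul hx0.le]
          congr 1
          field_simp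
  -- the exceptional set
  set X : Finset (ℤ × ℤ) := (X2 a b D E Q ∪ X3 a b D E) ∪
    (if 2 * D < nm (a, b) then (Finset.Ico 2 J).biUnion fun j => X4 a b D Q j else ∅) with hX
  refine ⟨X, ?_, ?_⟩
  · -- counting
    have c2 : ((X2 a b D E Q).card : ℝ) ≤ 40 * (D : ℝ) ^ (2 - ε) := by
      refine (card_X2 hab D E Q hE1).trans ?_
      have h1 : 36 * (D : ℝ) ^ 2 / E ≤ 36 * (D : ℝ) ^ (2 - ε) := by
        have hEpos : (0 : ℝ) < E := by exact_mod_cast hE1
        rw [div_le_iff₀ hEpos]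
        have h2 : (D : ℝ) ^ 2 = (D : ℝ) ^ (2 - ε) * (D : ℝ) ^ ε := by
          rw [hadd, show (2 - ε + ε) = ((2 : ℕ) : ℝ) by push_cast; ring, Real.rpow_natCast]
        rw [h2]
        have : (D : ℝ) ^ (2 - ε) * (D : ℝ) ^ ε ≤ (D : ℝ) ^ (2 - ε) * E :=
          mul_le_mul_of_nonneg_left hEge hx2e.le
        linarith
      linarith
    have c3 : ((X3 a b D E).card : ℝ) ≤ 9 * (D : ℝ) ^ (2 - ε) := by
      have h1 : ((X3 a b D E).card : ℝ) ≤ (2 * D + 1) * ((2 * D / E : ℕ) + 1) := by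
        exact_mod_cast card_X3 hab D E hE1
      have hEpos : (0 : ℝ) < E := by exact_mod_cast hE1
      have h2 : ((2 * D / E : ℕ) : ℝ) ≤ 2 * (D : ℝ) ^ (1 - ε) := by
        refine Nat.cast_div_le.trans ?_
        push_cast
        rw [div_le_iff₀ hEpos]
        have h3 : (D : ℝ) = (D : ℝ) ^ (1 - ε) * (D : ℝ) ^ ε := by
          rw [hadd, show (1 - ε + ε) = (1 : ℝ) by ring, Real.rpow_one]
        have h4 : (D : ℝ) ^ (1 - ε) * (D : ℝ) ^ ε ≤ (D : ℝ) ^ (1 - ε) * E :=
          mul_le_mul_of_nonneg_left hEge (by positivity)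
        linarith
      have h5 : (1 : ℝ) ≤ (D : ℝ) ^ (1 - ε) := Real.one_le_rpow hx1 (by linarith)
      have h6 : (D : ℝ) * (D : ℝ) ^ (1 - ε) = (D : ℝ) ^ (2 - ε) := by
        have := hadd 1 (1 - ε)
        rw [Real.rpow_one] at this
        rw [this]
        congr 1
        ring
      calc ((X3 a b D E).card : ℝ) ≤ (2 * D + 1) * ((2 * D / E : ℕ) + 1) := h1
        _ ≤ (3 * D) * (3 * (D : ℝ) ^ (1 - ε)) := by
            refine mul_le_mul (by linarith) (by linarith) (by positivity) (by positivity)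
        _ = 9 * ((D : ℝ) * (D : ℝ) ^ (1 - ε)) := by ring
        _ = 9 * (D : ℝ) ^ (2 - ε) := by rw [h6]
    have c4 : (((if 2 * D < nm (a, b) then (Finset.Ico 2 J).biUnion fun j => X4 a b D Q j else
        ∅ : Finset (ℤ × ℤ)).card : ℕ) : ℝ) ≤ (3 + 20 * C) * (D : ℝ) ^ (2 - ε / 2 + ε / 8) := by
      split_ifs with hH
      · have h1 : (((Finset.Ico 2 J).biUnion fun j => X4 a b D Q j).card : ℝ) ≤
            ∑ j ∈ Finset.Ico 2 J, ((X4 a b D Q j).card : ℝ) := by
          exact_mod_cast Finset.card_biUnion_le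
        have hs : Real.sqrt (2 * Q + 1) ≤ 2 * (D : ℝ) ^ (1 - ε / 2) := by
          rw [Real.sqrt_le_left (by positivity)]
          have h2 : (2 * (D : ℝ) ^ (1 - ε / 2)) ^ 2 = 4 * (D : ℝ) ^ (2 - ε) := by
            calc (2 * (D : ℝ) ^ (1 - ε / 2)) ^ 2 =
                4 * ((D : ℝ) ^ (1 - ε / 2) * (D : ℝ) ^ (1 - ε / 2)) := by ring
              _ = 4 * (D : ℝ) ^ (2 - ε) := by rw [hadd]; congr 2; ring
          rw [h2]
          linarith
        have hterm : ∀ j ∈ Finset.Ico 2 J, ((X4 a b D Q j).card : ℝ) ≤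
            (3 + 20 * C) * (D : ℝ) ^ (2 - ε / 2 + ε / 16) := by
          intro j hj
          have hj2 : 2 ≤ j := (Finset.mem_Ico.1 hj).1
          refine (card_X4 hab hH hj2 (hτb hH)).trans ?_
          have h3 : (2 * (Q : ℝ) + 1) ≤ 3 * (D : ℝ) ^ (2 - ε / 2 + ε / 16) := by
            have h4 : (D : ℝ) ^ (2 - ε) ≤ (D : ℝ) ^ (2 - ε / 2 + ε / 16) := hmono _ _ (by linarith)
            linarith
          have h5 : 2 * (τ : ℝ) * (4 * D + 1) * Real.sqrt (2 * Q + 1) ≤
              2 * (C * (D : ℝ) ^ (ε / 16)) * (5 * D) * (2 * (D : ℝ) ^ (1 - ε / 2)) := by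
            gcongr
            linarith
          have h6 : 2 * (C * (D : ℝ) ^ (ε / 16)) * (5 * D) * (2 * (D : ℝ) ^ (1 - ε / 2)) =
              20 * C * (D : ℝ) ^ (2 - ε / 2 + ε / 16) := by
            have h7 : (D : ℝ) ^ (ε / 16) * (D * (D : ℝ) ^ (1 - ε / 2)) =
                (D : ℝ) ^ (2 - ε / 2 + ε / 16) := by
              have h8 := hadd 1 (1 - ε / 2)
              rw [Real.rpow_one] at h8
              rw [h8, hadd]
              congr 1
              ring
            rw [← h7]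
            ring
          rw [h6] at h5
          linarith
        refine h1.trans ((Finset.sum_le_sum hterm).trans ?_)
        rw [Finset.sum_const, nsmul_eq_mul]
        have h9 : (((Finset.Ico 2 J).card : ℕ) : ℝ) ≤ (D : ℝ) ^ (ε / 16) := by
          refine le_trans ?_ hJR
          rw [Nat.card_Ico]
          exact_mod_cast Nat.sub_le _ _
        calc (((Finset.Ico 2 J).card : ℕ) : ℝ) * ((3 + 20 * C) * (D : ℝ) ^ (2 - ε / 2 + ε / 16)) ≤
            (D : ℝ) ^ (ε / 16) * ((3 + 20 * C) * (D : ℝ) ^ (2 - ε / 2 + ε / 16)) :=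
              mul_le_mul_of_nonneg_right h9 (by positivity)
          _ = (3 + 20 * C) * ((D : ℝ) ^ (ε / 16) * (D : ℝ) ^ (2 - ε / 2 + ε / 16)) := by ring
          _ = (3 + 20 * C) * (D : ℝ) ^ (2 - ε / 2 + ε / 8) := by
              rw [hadd]
              congr 2
              ring
      · simp only [Finset.card_empty, Nat.cast_zero]
        positivity
    have hu1 : (X.card : ℝ) ≤ (X2 a b D E Q).card + (X3 a b D E).card +
        (((if 2 * D < nm (a, b) then (Finset.Ico 2 J).biUnion fun j => X4 a b D Q j else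
          ∅ : Finset (ℤ × ℤ)).card : ℕ) : ℝ) := by
      have h1 : X.card ≤ (X2 a b D E Q ∪ X3 a b D E).card +
          (if 2 * D < nm (a, b) then (Finset.Ico 2 J).biUnion fun j => X4 a b D Q j else
          ∅ : Finset (ℤ × ℤ)).card := Finset.card_union_le _ _
      have h2 : (X2 a b D E Q ∪ X3 a b D E).card ≤ (X2 a b D E Q).card + (X3 a b D E).card :=
        Finset.card_union_le _ _
      exact_mod_cast h1.trans (Nat.add_le_add_right h2 _)
    have h3 : (D : ℝ) ^ (2 - ε) ≤ (D : ℝ) ^ (2 - ε / 2 + ε / 8) := hmono _ _ (by linarith)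
    have h4 : (X.card : ℝ) ≤ (52 + 20 * C) * (D : ℝ) ^ (2 - ε / 2 + ε / 8) := by
      have : (0 : ℝ) < (D : ℝ) ^ (2 - ε / 2 + ε / 8) := by positivity
      nlinarith
    refine h4.trans ?_
    calc (52 + 20 * C) * (D : ℝ) ^ (2 - ε / 2 + ε / 8) ≤
        (D : ℝ) ^ (ε / 4) * (D : ℝ) ^ (2 - ε / 2 + ε / 8) :=
          mul_le_mul_of_nonneg_right hD1 (by positivity)
      _ = (D : ℝ) ^ (2 - ε / 8) := by
          rw [hadd]
          congr 1
          ring
  · -- outside of the exceptional set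
    intro v hv hprim hvX
    rw [hX, Finset.mem_union, Finset.mem_union] at hvX
    push Not at hvX
    obtain ⟨⟨hv2, hv3⟩, hv4⟩ := hvX
    have hv4' : 2 * D < nm (a, b) → ∀ j, 2 ≤ j → j < J → v ∉ X4 a b D Q j := by
      intro hH j hj1 hj2 hmem
      apply hv4
      rw [if_pos hH, Finset.mem_biUnion]
      exact ⟨j, Finset.mem_Ico.2 ⟨hj1, hj2⟩, hmem⟩
    obtain ⟨g0, g1, g2, g3⟩ := outside (M := Q) hE1 hEQ hDQ hJ2 hv hprim hv2 hv3 hv4'
    set n := (lf a b v).natAbs with hn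
    have hn0 : (0 : ℝ) < n := by exact_mod_cast Int.natAbs_pos.2 g0
    have hr0 : (0 : ℝ) < rad n := by exact_mod_cast rad_pos n
    have hE0 : (0 : ℝ) < E := by exact_mod_cast hE1
    have hlogE : Real.log E ≤ 2 * ε * Real.log D := by
      have h1 : Real.log E ≤ Real.log (2 * (D : ℝ) ^ ε) := Real.log_le_log hE0 hEle
      have h2 : Real.log (2 * (D : ℝ) ^ ε) ≤ Real.log ((D : ℝ) ^ ε * (D : ℝ) ^ ε) := by
        apply Real.log_le_log (by positivity)
        exact mul_le_mul_of_nonneg_right (by linarith) (by positivity)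
      rw [hadd, Real.log_rpow hx0] at h2
      have e : (ε + ε) * Real.log D = 2 * ε * Real.log D := by ring
      linarith
    have hlogQ : (2 - 2 * ε) * Real.log D ≤ Real.log Q := by
      have h1 : (D : ℝ) ^ (2 - 2 * ε) ≤ Q := by
        refine le_trans ?_ hQge
        have h2 : (D : ℝ) ^ (2 - ε) = (D : ℝ) ^ (2 - 2 * ε) * (D : ℝ) ^ ε := by
          rw [hadd]; congr 1; ring
        rw [h2]
        have h3 : (0 : ℝ) < (D : ℝ) ^ (2 - 2 * ε) := by positivity
        nlinarith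
      have h4 := Real.log_le_log (by positivity) h1
      rwa [Real.log_rpow hx0] at h4
    have hQ0 : (0 : ℝ) < Q := by linarith
    -- the case of a small square part
    have hsmall : n ≤ rad n * E ^ 2 → Real.log n - 8 * ε * Real.log D ≤ Real.log (rad n) := by
      intro h
      have h1 : (n : ℝ) ≤ rad n * (E : ℝ) ^ 2 := by exact_mod_cast h
      have h2 := Real.log_le_log hn0 h1
      rw [Real.log_mul hr0.ne' (by positivity), Real.log_pow] at h2
      push_cast at h2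
      have h3 : 0 ≤ ε * Real.log D := by positivity
      linarith
    refine ⟨g0, ?_, ?_, ?_⟩
    · have h1 : (nm (a, b) : ℝ) * D ≤ n * E := by exact_mod_cast g1.le
      have h2 := Real.log_le_log (by positivity) h1
      rw [Real.log_mul (by positivity) hx0.ne', Real.log_mul hn0.ne' hE0.ne'] at h2
      linarith
    · rcases g2 with h | h | h
      · have := hsmall h
        have h1 := min_le_left (Real.log (n : ℝ)) (4 * Real.log D)
        linarith
      · have h1 : (Q : ℝ) ^ 2 ≤ rad n := by exact_mod_cast h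
        have h2 := Real.log_le_log (by positivity) h1
        rw [Real.log_pow] at h2
        push_cast at h2
        have h3 := min_le_right (Real.log (n : ℝ)) (4 * Real.log D)
        have h4 : 0 ≤ ε * Real.log D := by positivity
        linarith
      · have h1 : (Q : ℝ) * Q ≤ rad n * (E : ℝ) ^ 2 := by exact_mod_cast h
        have h2 := Real.log_le_log (by positivity) h1
        rw [Real.log_mul hQ0.ne' hQ0.ne', Real.log_mul hr0.ne' (by positivity), Real.log_pow] at h2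
        push_cast at h2
        have h3 := min_le_right (Real.log (n : ℝ)) (4 * Real.log D)
        linarith
    · intro hA5
      apply hsmall
      apply g3
      have h1 : (2 : ℝ) * nm (a, b) * D ≤ Q * (Q : ℝ) ^ 2 := by
        have h2 : ((D : ℝ) ^ (2 - ε) / 2) ^ 3 ≤ (Q : ℝ) ^ 3 :=
          pow_le_pow_left₀ (by positivity) hQge 3
        have h3 : ((D : ℝ) ^ (2 - ε) / 2) ^ 3 = (D : ℝ) ^ (6 - 3 * ε) / 8 := by
          have : ((D : ℝ) ^ (2 - ε)) ^ 3 = (D : ℝ) ^ (6 - 3 * ε) := by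
            rw [← Real.rpow_natCast, ← Real.rpow_mul hx0.le]
            congr 1
            push_cast
            ring
          rw [div_pow, this]
          norm_num
        have h4 : 16 * (D : ℝ) ^ (A + 1) ≤ (D : ℝ) ^ (6 - 3 * ε) := by
          calc 16 * (D : ℝ) ^ (A + 1) ≤ (D : ℝ) ^ ε * (D : ℝ) ^ (A + 1) :=
                mul_le_mul_of_nonneg_right hD2 (by positivity)
            _ = (D : ℝ) ^ (ε + (A + 1)) := hadd _ _
            _ ≤ (D : ℝ) ^ (6 - 3 * ε) := hmono _ _ (by linarith)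
        have h5 : (2 : ℝ) * nm (a, b) * D ≤ 2 * (D : ℝ) ^ (A + 1) := by
          have h6 : (D : ℝ) ^ (A + 1) = (D : ℝ) ^ A * D := by
            rw [Real.rpow_add hx0, Real.rpow_one]
          rw [h6]
          have : (nm (a, b) : ℝ) * D ≤ (D : ℝ) ^ A * D := mul_le_mul_of_nonneg_right hnm hx0.le
          linarith
        have h7 : (Q : ℝ) * (Q : ℝ) ^ 2 = (Q : ℝ) ^ 3 := by ring
        rw [h7]
        linarith
      exact_mod_cast h1

end Pool.Agent.W5h18.EP
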