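import Pool.Agent.W5h18.EP.Lattice

/-!
# Few vectors of a box on which a linear form is a perfect power up to a small factor
-/

set_option autoImplicit false

namespace Pool.Agent.W5h18.EP

open Finset

lemma pow_step {x y t j : ℕ} (hxy : x < y) (ht : 1 ≤ t) (hj : 2 ≤ j) :
    (x + t) ^ j + y ^ j < (y + t) ^ j + x ^ j := by
  induction j, hj using Nat.le_induction with
  | base => nlinarith
  | succ j hj ih =>
    have h1 : x ^ j ≤ y ^ j := Nat.pow_le_pow_left hxy.le j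
    have h2 : x ^ j ≤ (x + t) ^ j := Nat.pow_le_pow_left (Nat.le_add_right _ _) j
    have h3 : y ^ j ≤ (y + t) ^ j := Nat.pow_le_pow_left (Nat.le_add_right _ _) j
    obtain ⟨V, hV⟩ := Nat.exists_eq_add_of_le h2
    obtain ⟨U, hU⟩ := Nat.exists_eq_add_of_le h3
    have hUV : V < U := by omega
    rw [pow_succ, pow_succ, pow_succ, pow_succ]
    rw [hV, hU]
    have h4 : V * (x + t) < U * (y + t) := by
      apply Nat.mul_lt_mul_of_lt_of_le hUV (by omega) (by omega)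
    have h5 : x ^ j * t ≤ y ^ j * t := Nat.mul_le_mul_right _ h1
    nlinarith

lemma pow_inj {x y t j : ℕ} (ht : 1 ≤ t) (hj : 2 ≤ j)
    (h : (x + t) ^ j + y ^ j = (y + t) ^ j + x ^ j) : x = y := by
  rcases lt_trichotomy x y with h1 | h1 | h1
  · have := pow_step h1 ht hj
    omega
  · exact h1
  · have := pow_step h1 ht hj
    omega

/-- signed divisors -/
noncomputable def sd (n : ℤ) : Finset ℤ :=
  (n.natAbs.divisors.image fun d : ℕ => (d : ℤ)) ∪ (n.natAbs.divisors.image fun d : ℕ => -(d : ℤ))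

lemma mem_sd {n d : ℤ} (hn : n ≠ 0) (h : d ∣ n) : d ∈ sd n := by
  have h1 : d.natAbs ∈ n.natAbs.divisors :=
    Nat.mem_divisors.2 ⟨Int.natAbs_dvd_natAbs.2 h, Int.natAbs_ne_zero.2 hn⟩
  unfold sd
  rw [Finset.mem_union, Finset.mem_image, Finset.mem_image]
  rcases le_total 0 d with h0 | h0
  · exact Or.inl ⟨d.natAbs, h1, by omega⟩
  · exact Or.inr ⟨d.natAbs, h1, by omega⟩

lemma card_sd (n : ℤ) : (sd n).card ≤ 2 * n.natAbs.divisors.card := by
  unfold sd
  refine (Finset.card_union_le _ _).trans ?_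
  have h1 : (n.natAbs.divisors.image fun d : ℕ => (d : ℤ)).card ≤ n.natAbs.divisors.card :=
    Finset.card_image_le
  have h2 : (n.natAbs.divisors.image fun d : ℕ => -(d : ℤ)).card ≤ n.natAbs.divisors.card :=
    Finset.card_image_le
  omega

/-- the form has no small zeros -/
lemma lf_ne_zero {a b : ℤ} (hab : IsCoprime a b) {E : ℕ} (hE : E < nm (a, b)) {w : ℤ × ℤ}
    (hw : nm w ≤ E) (hw0 : w ≠ 0) : lf a b w ≠ 0 := by
  intro h
  unfold lf at h
  have h1 : b ∣ w.1 := by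
    have : b ∣ a * w.1 := ⟨-w.2, by linarith⟩
    exact hab.symm.dvd_of_dvd_mul_left this
  have h2 : a ∣ w.2 := by
    have : a ∣ b * w.2 := ⟨-w.1, by linarith⟩
    exact hab.dvd_of_dvd_mul_left this
  unfold nm at hE hw
  simp only at hE
  have key1 : w.1 ≠ 0 → b.natAbs ≤ w.1.natAbs := fun h0 =>
    Nat.le_of_dvd (Int.natAbs_pos.2 h0) (Int.natAbs_dvd_natAbs.2 h1)
  have key2 : w.2 ≠ 0 → a.natAbs ≤ w.2.natAbs := fun h0 =>
    Nat.le_of_dvd (Int.natAbs_pos.2 h0) (Int.natAbs_dvd_natAbs.2 h2)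
  by_cases h3 : w.1 = 0
  · by_cases h4 : w.2 = 0
    · exact hw0 (Prod.ext h3 h4)
    · have h5 := key2 h4
      rw [h3, mul_zero, zero_add] at h
      have hb : b = 0 := by
        rcases mul_eq_zero.1 h with h6 | h6
        · exact h6
        · exact absurd h6 h4
      rw [hb] at hE
      simp only [Int.natAbs_zero] at hE
      omega
  · have h5 := key1 h3
    by_cases h4 : w.2 = 0
    · rw [h4, mul_zero, add_zero] at h
      have ha : a = 0 := by
        rcases mul_eq_zero.1 h with h6 | h6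
        · exact h6
        · exact absurd h6 h3
      rw [ha] at hE
      simp only [Int.natAbs_zero] at hE
      omega
    · have h6 := key2 h4
      omega

lemma nm_sub_le (v w : ℤ × ℤ) : nm (v - w) ≤ nm v + nm w := by
  unfold nm
  simp only [Prod.fst_sub, Prod.snd_sub]
  omega

lemma lf_inj {a b : ℤ} (hab : IsCoprime a b) {D : ℕ} (hD : 2 * D < nm (a, b)) {v w : ℤ × ℤ}
    (hv : nm v ≤ D) (hw : nm w ≤ D) (h : lf a b v = lf a b w) : v = w := by
  by_contra hne
  have h1 : lf a b (v - w) ≠ 0 := lf_ne_zero hab hD (by have := nm_sub_le v w; omega)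
    (sub_ne_zero.2 hne)
  rw [lf_sub, h, sub_self] at h1
  exact h1 rfl

lemma card_box (D : ℕ) : (box D).card = (2 * D + 1) ^ 2 := by
  unfold box
  rw [Finset.card_product, Int.card_Icc]
  have : ((D : ℤ) + 1 - -(D : ℤ)).toNat = 2 * D + 1 := by omega
  rw [this]
  ring

/-- **The energy bound.** -/
theorem energy {a b : ℤ} (hab : IsCoprime a b) {D M τ j : ℕ} (hD : 2 * D < nm (a, b)) (hj : 2 ≤ j)
    (hτ : ∀ w : ℤ × ℤ, nm w ≤ 2 * D → w ≠ 0 → (lf a b w).natAbs.divisors.card ≤ τ)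
    (S : Finset (ℤ × ℤ)) (hS : ∀ v ∈ S, nm v ≤ D)
    (h : ∀ v ∈ S, ∃ (m : ℤ) (r : ℕ), m ≠ 0 ∧ |m| ≤ M ∧ lf a b v = m * (r : ℤ) ^ j) :
    S.card ^ 2 ≤ (2 * M + 1) * (S.card + (4 * D + 1) ^ 2 * (2 * τ) ^ 2) := by
  classical
  choose! μ ρ hμ0 hμM hlf using h
  set I : Finset ℤ := Icc (-(M : ℤ)) M with hI
  have hIc : I.card = 2 * M + 1 := by
    rw [hI, Int.card_Icc]; omega
  have hmaps : ∀ v ∈ S, μ v ∈ I := by
    intro v hv
    rw [hI, Finset.mem_Icc]
    exact abs_le.1 (hμM v hv)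
  have hsum := Finset.card_eq_sum_card_fiberwise (f := μ) (s := S) (t := I) hmaps
  have hcs : (∑ m ∈ I, ((S.filter fun v => μ v = m).card)) ^ 2 ≤
      I.card * ∑ m ∈ I, (S.filter fun v => μ v = m).card ^ 2 := by
    have := sq_sum_le_card_mul_sum_sq (s := I) (f := fun m => ((S.filter fun v => μ v = m).card : ℤ))
    exact_mod_cast this
  rw [← hsum, hIc] at hcs
  refine hcs.trans (Nat.mul_le_mul_left _ ?_)
  -- pairs with the same cofactor
  set P : Finset ((ℤ × ℤ) × (ℤ × ℤ)) := (S ×ˢ S).filter fun x => μ x.1 = μ x.2 with hP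
  have hPc : ∑ m ∈ I, (S.filter fun v => μ v = m).card ^ 2 = P.card := by
    have h1 := Finset.card_eq_sum_card_fiberwise (f := fun x : (ℤ × ℤ) × (ℤ × ℤ) => μ x.1) (s := P)
      (t := I) (by
        intro x hx
        have hx' := Finset.mem_coe.1 hx
        rw [hP, Finset.mem_filter, Finset.mem_product] at hx'
        exact Finset.mem_coe.2 (hmaps _ hx'.1.1))
    rw [h1]
    refine Finset.sum_congr rfl fun m _ => ?_
    rw [sq, ← Finset.card_product]
    congr 1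
    ext x
    simp only [hP, Finset.mem_product, Finset.mem_filter]
    constructor
    · rintro ⟨⟨h1, h2⟩, h3, h4⟩
      exact ⟨⟨⟨h1, h3⟩, by rw [h2, h4]⟩, h2⟩
    · rintro ⟨⟨⟨h1, h2⟩, h3⟩, h4⟩
      exact ⟨⟨h1, h4⟩, h2, by rw [← h3, h4]⟩
  rw [hPc]
  have hsplit : P ⊆ (S.image fun v => (v, v)) ∪ P.filter fun x => x.1 ≠ x.2 := by
    intro x hx
    by_cases hx2 : x.1 = x.2
    · refine Finset.mem_union_left _ (Finset.mem_image.2 ⟨x.1, ?_, ?_⟩)
      · rw [hP, Finset.mem_filter, Finset.mem_product] at hx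
        exact hx.1.1
      · exact Prod.ext rfl hx2
    · exact Finset.mem_union_right _ (Finset.mem_filter.2 ⟨hx, hx2⟩)
  refine (Finset.card_le_card hsplit).trans ((Finset.card_union_le _ _).trans ?_)
  refine Nat.add_le_add Finset.card_image_le ?_
  -- off the diagonal
  set W : Finset (ℤ × ℤ) := (box (2 * D)).erase 0 with hW
  set T : Finset (Σ _ : ℤ × ℤ, ℤ × ℤ) := W.sigma fun w => sd (lf a b w) ×ˢ sd (lf a b w) with hT
  have hTc : T.card ≤ (4 * D + 1) ^ 2 * (2 * τ) ^ 2 := by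
    rw [hT, Finset.card_sigma]
    calc ∑ w ∈ W, (sd (lf a b w) ×ˢ sd (lf a b w)).card ≤ ∑ _w ∈ W, (2 * τ) ^ 2 := by
          refine Finset.sum_le_sum fun w hw => ?_
          rw [hW, Finset.mem_erase] at hw
          rw [Finset.card_product, sq]
          have h1 : (sd (lf a b w)).card ≤ 2 * τ :=
            (card_sd _).trans (Nat.mul_le_mul_left _ (hτ w (mem_box.1 hw.2) hw.1))
          exact Nat.mul_le_mul h1 h1
      _ = W.card * (2 * τ) ^ 2 := by rw [Finset.sum_const, smul_eq_mul]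
      _ ≤ (4 * D + 1) ^ 2 * (2 * τ) ^ 2 := by
          refine Nat.mul_le_mul_right _ ?_
          refine (Finset.card_erase_le).trans ?_
          rw [card_box]
          exact le_of_eq (by ring)
  refine le_trans ?_ hTc
  refine Finset.card_le_card_of_injOn
    (fun x => ⟨x.1 - x.2, (μ x.1, (ρ x.1 : ℤ) - ρ x.2)⟩) ?_ ?_
  · intro x hx
    have hx' := Finset.mem_coe.1 hx
    rw [Finset.mem_filter, hP, Finset.mem_filter, Finset.mem_product] at hx'
    obtain ⟨⟨⟨h1, h2⟩, h3⟩, h4⟩ := hx'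
    have hw0 : x.1 - x.2 ≠ 0 := sub_ne_zero.2 h4
    have hwn : nm (x.1 - x.2) ≤ 2 * D := by
      have := nm_sub_le x.1 x.2
      have := hS _ h1
      have := hS _ h2
      omega
    have hne := lf_ne_zero hab hD hwn hw0
    have e1 : lf a b (x.1 - x.2) = μ x.1 * ((ρ x.1 : ℤ) ^ j - (ρ x.2 : ℤ) ^ j) := by
      rw [lf_sub, hlf _ h1, hlf _ h2, ← h3]
      ring
    refine Finset.mem_coe.2 (Finset.mem_sigma.2 ⟨?_, ?_⟩)
    · exact Finset.mem_erase.2 ⟨hw0, mem_box.2 hwn⟩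
    · refine Finset.mem_product.2 ⟨mem_sd hne ?_, mem_sd hne ?_⟩
      · exact ⟨_, e1⟩
      · simp only
        rw [e1]
        exact dvd_mul_of_dvd_right (sub_dvd_pow_sub_pow _ _ _) _
  · intro x hx y hy hxy
    have hx' := Finset.mem_coe.1 hx
    have hy' := Finset.mem_coe.1 hy
    rw [Finset.mem_filter, hP, Finset.mem_filter, Finset.mem_product] at hx' hy'
    obtain ⟨⟨⟨h1, h2⟩, h3⟩, h4⟩ := hx'
    obtain ⟨⟨⟨g1, g2⟩, g3⟩, g4⟩ := hy'
    simp only [Sigma.mk.injEq, heq_eq_eq, Prod.mk.injEq] at hxy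
    obtain ⟨k1, k2, k3⟩ := hxy
    have hw0 : x.1 - x.2 ≠ 0 := sub_ne_zero.2 h4
    have hwn : nm (x.1 - x.2) ≤ 2 * D := by
      have := nm_sub_le x.1 x.2
      have := hS _ h1
      have := hS _ h2
      omega
    have hne := lf_ne_zero hab hD hwn hw0
    have e1 : lf a b (x.1 - x.2) = μ x.1 * ((ρ x.1 : ℤ) ^ j - (ρ x.2 : ℤ) ^ j) := by
      rw [lf_sub, hlf _ h1, hlf _ h2, ← h3]
      ring
    have e2 : lf a b (y.1 - y.2) = μ y.1 * ((ρ y.1 : ℤ) ^ j - (ρ y.2 : ℤ) ^ j) := by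
      rw [lf_sub, hlf _ g1, hlf _ g2, ← g3]
      ring
    have hm0 : μ x.1 ≠ 0 := hμ0 _ h1
    have e3 : ((ρ x.1 : ℤ) ^ j - (ρ x.2 : ℤ) ^ j) = ((ρ y.1 : ℤ) ^ j - (ρ y.2 : ℤ) ^ j) := by
      rw [k1, e2, ← k2] at e1
      exact (mul_left_cancel₀ hm0 e1).symm
    -- the roots agree
    have hρ : ρ x.2 = ρ y.2 := by
      rcases lt_trichotomy (ρ x.1) (ρ x.2) with hlt | heq | hgt
      · obtain ⟨t, ht⟩ := Nat.exists_eq_add_of_lt hlt
        have ht2 : ρ y.2 = ρ y.1 + t + 1 := by omega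
        have h5 : (ρ y.1 + (t + 1)) ^ j + (ρ x.1) ^ j = (ρ x.1 + (t + 1)) ^ j + (ρ y.1) ^ j := by
          have e4 : ((ρ y.2 : ℤ)) ^ j + (ρ x.1 : ℤ) ^ j = (ρ x.2 : ℤ) ^ j + (ρ y.1 : ℤ) ^ j := by
            linarith
          rw [ht, ht2] at e4
          exact_mod_cast e4
        have h6 := pow_inj (by omega) hj h5
        omega
      · exfalso
        apply hne
        rw [e1, heq, sub_self, mul_zero]
      · obtain ⟨t, ht⟩ := Nat.exists_eq_add_of_lt hgt
        have ht2 : ρ y.1 = ρ y.2 + t + 1 := by omega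
        have h5 : (ρ x.2 + (t + 1)) ^ j + (ρ y.2) ^ j = (ρ y.2 + (t + 1)) ^ j + (ρ x.2) ^ j := by
          have e4 : ((ρ x.1 : ℤ)) ^ j + (ρ y.2 : ℤ) ^ j = (ρ y.1 : ℤ) ^ j + (ρ x.2 : ℤ) ^ j := by
            linarith
          rw [ht, ht2] at e4
          exact_mod_cast e4
        exact pow_inj (by omega) hj h5
    have h7 : x.2 = y.2 := by
      refine lf_inj hab hD (hS _ h2) (hS _ g2) ?_
      rw [hlf _ h2, hlf _ g2, ← h3, ← g3, k2, hρ]
    have h8 : x.1 = y.1 := by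
      have := k1
      rw [h7] at this
      exact sub_left_injective this
    exact Prod.ext h8 h7

end Pool.Agent.W5h18.EP
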