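import Pool.Agent.W5h18.EP.Pairs

/-!
# Almost all matrices of determinant one are good for a given point
-/

set_option autoImplicit false

namespace Pool.Agent.W5h18.EP

open Finset Filter

lemma sum_odd (n : ℕ) : ∑ j ∈ range n, (1 : ℝ) / (2 * (j : ℝ) + 3) ^ 2 ≤ 1 / 4 - 1 / (4 * ((n : ℝ) + 1)) := by
  induction n with
  | zero => norm_num
  | succ n ih =>
    rw [Finset.sum_range_succ]
    have h1 : (1 : ℝ) / (2 * (n : ℝ) + 3) ^ 2 ≤ 1 / (4 * ((n : ℝ) + 1)) - 1 / (4 * ((n : ℝ) + 1 + 1)) := by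
      have hn : (0 : ℝ) ≤ n := Nat.cast_nonneg n
      have e : (1 : ℝ) / (4 * ((n : ℝ) + 1)) - 1 / (4 * ((n : ℝ) + 1 + 1)) = 1 / (4 * ((n : ℝ) + 1) * ((n : ℝ) + 2)) := by
        field_simp
        ring
      rw [e]
      apply one_div_le_one_div_of_le (by positivity)
      nlinarith
    push_cast
    linarith

/-- at least half of the pairs are coprime -/
lemma card_coprime (D : ℕ) : (D : ℝ) ^ 2 / 2 ≤
    (((Ioc 0 D ×ˢ Ioc 0 D).filter fun z : ℕ × ℕ => Nat.Coprime z.1 z.2).card : ℝ) := by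
  classical
  set I : Finset ℕ := insert 2 ((range D).image fun j : ℕ => 2 * j + 3) with hI
  have hsplit := Finset.card_filter_add_card_filter_not (s := Ioc 0 D ×ˢ Ioc 0 D)
    (fun z : ℕ × ℕ => Nat.Coprime z.1 z.2)
  have htot : (Ioc 0 D ×ˢ Ioc 0 D).card = D ^ 2 := by
    rw [Finset.card_product, Nat.card_Ioc, sq]
    simp
  rw [htot] at hsplit
  have hsub : ((Ioc 0 D ×ˢ Ioc 0 D).filter fun z : ℕ × ℕ => ¬ Nat.Coprime z.1 z.2) ⊆
      I.biUnion fun p => ((Ioc 0 D).filter fun x => p ∣ x) ×ˢ ((Ioc 0 D).filter fun x => p ∣ x) := by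
    intro z hz
    rw [Finset.mem_filter, Finset.mem_product] at hz
    obtain ⟨⟨h1, h2⟩, h3⟩ := hz
    obtain ⟨p, hp, hp1, hp2⟩ := Nat.Prime.not_coprime_iff_dvd.1 h3
    rw [Finset.mem_biUnion]
    refine ⟨p, ?_, ?_⟩
    · rw [hI, Finset.mem_insert, Finset.mem_image]
      rcases hp.eq_two_or_odd' with h4 | ⟨k, hk⟩
      · exact Or.inl h4
      · right
        have h5 := hp.two_le
        have h6 : p ≤ D := (Nat.le_of_dvd (Finset.mem_Ioc.1 h1).1 hp1).trans (Finset.mem_Ioc.1 h1).2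
        exact ⟨k - 1, Finset.mem_range.2 (by omega), by omega⟩
    · rw [Finset.mem_product, Finset.mem_filter, Finset.mem_filter]
      exact ⟨⟨h1, hp1⟩, h2, hp2⟩
  have h1 : ((((Ioc 0 D ×ˢ Ioc 0 D).filter fun z : ℕ × ℕ => ¬ Nat.Coprime z.1 z.2).card : ℕ) : ℝ) ≤
      (D : ℝ) ^ 2 / 2 := by
    have h2 : (((Ioc 0 D ×ˢ Ioc 0 D).filter fun z : ℕ × ℕ => ¬ Nat.Coprime z.1 z.2).card : ℝ) ≤
        ((∑ p ∈ I, (D / p) * (D / p) : ℕ) : ℝ) := by
      have this := (Finset.card_le_card hsub).trans Finset.card_biUnion_le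
      refine Nat.cast_le.2 (this.trans (le_of_eq ?_))
      have e : ∀ p ∈ I, (((Ioc 0 D).filter fun x => p ∣ x) ×ˢ ((Ioc 0 D).filter fun x => p ∣ x)).card =
          (D / p) * (D / p) := by
        intro p _
        rw [Finset.card_product, Nat.Ioc_filter_dvd_card_eq_div]
      rw [Finset.sum_congr rfl e]
    refine h2.trans ?_
    have h3 : ∀ p : ℕ, (((D / p) * (D / p) : ℕ) : ℝ) ≤ (D : ℝ) ^ 2 * (1 / (p : ℝ) ^ 2) := by
      intro p
      have h4 : ((D / p : ℕ) : ℝ) ≤ (D : ℝ) / p := Nat.cast_div_le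
      push_cast
      calc ((D / p : ℕ) : ℝ) * ((D / p : ℕ) : ℝ) ≤ ((D : ℝ) / p) * ((D : ℝ) / p) := by gcongr
        _ = _ := by ring
    have h5 : ((∑ p ∈ I, (D / p) * (D / p) : ℕ) : ℝ) ≤ ∑ p ∈ I, (D : ℝ) ^ 2 * (1 / (p : ℝ) ^ 2) := by
      rw [Nat.cast_sum]
      exact Finset.sum_le_sum fun p _ => h3 p
    refine h5.trans ?_
    rw [← Finset.mul_sum]
    have h6 : ∑ p ∈ I, (1 : ℝ) / (p : ℝ) ^ 2 ≤ 1 / 2 := by
      have h7 : ∑ p ∈ I, (1 : ℝ) / (p : ℝ) ^ 2 ≤ 1 / ((2 : ℕ) : ℝ) ^ 2 +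
          ∑ p ∈ (range D).image (fun j : ℕ => 2 * j + 3), (1 : ℝ) / (p : ℝ) ^ 2 := by
        rw [hI]
        by_cases hm : 2 ∈ (range D).image fun j : ℕ => 2 * j + 3
        · rw [Finset.insert_eq_of_mem hm]
          have : (0 : ℝ) ≤ 1 / ((2 : ℕ) : ℝ) ^ 2 := by positivity
          linarith
        · rw [Finset.sum_insert hm]
      have h8 : ∑ p ∈ (range D).image (fun j : ℕ => 2 * j + 3), (1 : ℝ) / (p : ℝ) ^ 2 =
          ∑ j ∈ range D, (1 : ℝ) / (2 * (j : ℝ) + 3) ^ 2 := by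
        rw [Finset.sum_image]
        · refine Finset.sum_congr rfl fun j _ => ?_
          push_cast
          ring
        · intro x _ y _ hxy
          simp only at hxy
          omega
      have h9 := sum_odd D
      have h10 : (0 : ℝ) ≤ 1 / (4 * ((D : ℝ) + 1)) := by positivity
      rw [h8] at h7
      have e : (1 : ℝ) / ((2 : ℕ) : ℝ) ^ 2 = 1 / 4 := by norm_num
      rw [e] at h7
      linarith
    have h11 : (0 : ℝ) ≤ (D : ℝ) ^ 2 := by positivity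
    nlinarith
  have h12 : (((Ioc 0 D ×ˢ Ioc 0 D).filter fun z : ℕ × ℕ => Nat.Coprime z.1 z.2).card : ℝ) +
      (((Ioc 0 D ×ˢ Ioc 0 D).filter fun z : ℕ × ℕ => ¬ Nat.Coprime z.1 z.2).card : ℝ) =
        (D : ℝ) ^ 2 := by exact_mod_cast hsplit
  linarith

/-- the number of matrices -/
lemma card_Prs (D : ℕ) : (D : ℝ) ^ 2 / 2 ≤ ((Prs D).card : ℝ) := by
  classical
  refine (card_coprime D).trans ?_
  have hex : ∀ z : ℕ × ℕ, Nat.Coprime z.1 z.2 →
      ∃ w : ℤ × ℤ, dt ((z.1 : ℤ), (z.2 : ℤ)) w = 1 ∧ nm w ≤ nm ((z.1 : ℤ), (z.2 : ℤ)) := by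
    intro z hz
    exact exists_completion (by simpa using hz)
  choose! c hc1 hc2 using hex
  have : ((Ioc 0 D ×ˢ Ioc 0 D).filter fun z : ℕ × ℕ => Nat.Coprime z.1 z.2).card ≤ (Prs D).card := by
    refine Finset.card_le_card_of_injOn (fun z => (((z.1 : ℤ), (z.2 : ℤ)), c z)) ?_ ?_
    · intro z hz
      have hz' := Finset.mem_coe.1 hz
      rw [Finset.mem_filter, Finset.mem_product, Finset.mem_Ioc, Finset.mem_Ioc] at hz'
      obtain ⟨⟨h1, h2⟩, h3⟩ := hz'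
      have h4 : nm ((z.1 : ℤ), (z.2 : ℤ)) ≤ D := by
        unfold nm
        simp only [Int.natAbs_natCast]
        exact max_le h1.2 h2.2
      exact Finset.mem_coe.2 (mem_Prs.2 ⟨h4, (hc2 z h3).trans h4, hc1 z h3⟩)
    · intro z hz y hy hzy
      simp only [Prod.mk.injEq, Nat.cast_inj] at hzy
      exact Prod.ext hzy.1.1 hzy.1.2
  exact_mod_cast this

lemma gcd_rw' {α : ℤ × ℤ} (hα : Int.gcd α.1 α.2 = 1) {z : (ℤ × ℤ) × (ℤ × ℤ)}
    (hz : dt z.1 z.2 = 1) : Int.gcd (rw' α z).1 (rw' α z).2 = 1 := by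
  obtain ⟨x, y, hxy⟩ := Int.isCoprime_iff_gcd_eq_one.2 hα
  rw [← Int.isCoprime_iff_gcd_eq_one]
  unfold dt at hz
  refine ⟨x * z.1.2 + y * z.2.2, -(x * z.1.1 + y * z.2.1), ?_⟩
  unfold rw'
  simp only
  linear_combination (x * α.1 + y * α.2) * hz + hxy

lemma lf_rw' (x α : ℤ × ℤ) (z : (ℤ × ℤ) × (ℤ × ℤ)) :
    lf x.1 x.2 (rw' α z) =
      (z.1.1 * x.1 + z.1.2 * x.2) * α.2 - (z.2.1 * x.1 + z.2.2 * x.2) * α.1 := by
  unfold lf rw'
  ring

/-- **The main statement.** -/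
theorem main (A ε : ℝ) (hA : 0 ≤ A) (hε : 0 < ε) (hε1 : ε ≤ 1 / 10) :
    ∀ᶠ D : ℕ in atTop, ∀ x : ℤ × ℤ, IsCoprime x.1 x.2 → (nm x : ℝ) ≤ (D : ℝ) ^ A →
      ∃ B : Finset ((ℤ × ℤ) × (ℤ × ℤ)), (B.card : ℝ) ≤ (D : ℝ) ^ (-(ε / 64)) * (Prs D).card ∧
        ∀ z ∈ Prs D, z ∉ B → ∀ α : ℤ × ℤ, Int.gcd α.1 α.2 = 1 → (nm α : ℝ) ≤ (D : ℝ) ^ (ε / 128) →
          lf x.1 x.2 (rw' α z) ≠ 0 ∧
          Real.log (nm x) + (1 - 2 * ε) * Real.log D ≤ Real.log (lf x.1 x.2 (rw' α z)).natAbs ∧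
          min (Real.log (lf x.1 x.2 (rw' α z)).natAbs) (4 * Real.log D) - 16 * ε * Real.log D ≤
            Real.log (rad (lf x.1 x.2 (rw' α z)).natAbs) ∧
          (A + 4 * ε ≤ 5 → Real.log (lf x.1 x.2 (rw' α z)).natAbs - 16 * ε * Real.log D ≤
            Real.log (rad (lf x.1 x.2 (rw' α z)).natAbs)) := by
  classical
  obtain ⟨N0, hN0⟩ := eventually_atTop.1 (single A ε hA hε hε1)
  filter_upwards [ev_const 5400 (ε / 64) (by positivity), ev_const 2 (ε / 128) (by positivity),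
    eventually_ge_atTop (max N0 4)] with D hD1 hD2 hD3
  intro x hx hxA
  have hDN : N0 ≤ D := (le_max_left _ _).trans hD3
  have hD4 : 4 ≤ D := (le_max_right _ _).trans hD3
  have hx4 : (4 : ℝ) ≤ D := by exact_mod_cast hD4
  have hx0 : (0 : ℝ) < D := by linarith
  have hx1 : (1 : ℝ) ≤ D := by linarith
  have hL0 : 0 ≤ Real.log D := Real.log_nonneg hx1
  have hmono : ∀ s t : ℝ, s ≤ t → (D : ℝ) ^ s ≤ (D : ℝ) ^ t := fun s t h =>
    Real.rpow_le_rpow_of_exponent_le hx1 h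
  have hadd : ∀ s t : ℝ, (D : ℝ) ^ s * (D : ℝ) ^ t = (D : ℝ) ^ (s + t) := fun s t =>
    (Real.rpow_add hx0 s t).symm
  set η : ℝ := ε / 128 with hη
  have hη0 : 0 < η := by positivity
  set U : ℕ := ⌊(D : ℝ) ^ η⌋₊ with hU
  have hUle : (U : ℝ) ≤ (D : ℝ) ^ η := Nat.floor_le (by positivity)
  have hU1 : 1 ≤ U := Nat.le_floor (by push_cast; linarith)
  have hU1R : (1 : ℝ) ≤ U := by exact_mod_cast hU1
  set D2 : ℕ := 2 * U * D with hD2'
  have hD2ge : 2 * D ≤ D2 := by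
    rw [hD2']
    calc 2 * D = 2 * 1 * D := by ring
      _ ≤ 2 * U * D := Nat.mul_le_mul_right _ (Nat.mul_le_mul_left _ hU1)
  have hDD2 : (D : ℝ) ≤ D2 := by
    have : D ≤ D2 := by omega
    exact_mod_cast this
  have hD20 : (0 : ℝ) < D2 := by linarith
  have hD21 : (1 : ℝ) ≤ D2 := by linarith
  have hD2le : (D2 : ℝ) ≤ 2 * (D : ℝ) ^ (1 + η) := by
    rw [hD2']
    push_cast
    have h1 : (D : ℝ) ^ (1 + η) = D * (D : ℝ) ^ η := by rw [Real.rpow_add hx0, Real.rpow_one]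
    rw [h1]
    nlinarith
  obtain ⟨X, hXc, hX⟩ := hN0 D2 (by omega) x.1 x.2 hx
    (hxA.trans (Real.rpow_le_rpow hx0.le hDD2 hA))
  set R : ℕ := ⌈(D2 : ℝ) ^ (1 - ε / 16)⌉₊ with hR
  have hR1' : (1 : ℝ) ≤ (D2 : ℝ) ^ (1 - ε / 16) := Real.one_le_rpow hD21 (by linarith)
  have hRge : (D2 : ℝ) ^ (1 - ε / 16) ≤ R := Nat.le_ceil _
  have hRle : (R : ℝ) ≤ 2 * (D2 : ℝ) ^ (1 - ε / 16) := by
    have := (Nat.ceil_lt_add_one (by positivity : 0 ≤ (D2 : ℝ) ^ (1 - ε / 16))).le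
    rw [← hR] at this
    linarith
  have hR1 : 1 ≤ R := by
    have : (1 : ℝ) ≤ R := hR1'.trans hRge
    exact_mod_cast this
  set AA : Finset (ℤ × ℤ) := (box U).filter fun α => Int.gcd α.1 α.2 = 1 with hAA
  refine ⟨AA.biUnion fun α => (Prs D).filter fun z => rw' α z ∈ X, ?_, ?_⟩
  · -- counting
    have hadd2 : ∀ s t : ℝ, (D2 : ℝ) ^ s * (D2 : ℝ) ^ t = (D2 : ℝ) ^ (s + t) := fun s t =>
      (Real.rpow_add hD20 s t).symm
    have h1 : ∀ α ∈ AA, (((Prs D).filter fun z => rw' α z ∈ X).card : ℝ) ≤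
        75 * (D2 : ℝ) ^ (2 - ε / 16) := by
      intro α hα
      rw [hAA, Finset.mem_filter] at hα
      refine (card_bad_alpha hα.2 (mem_box.1 hα.1) hR1 X).trans ?_
      rw [← hD2']
      have h2 : 36 * (D2 : ℝ) * R ≤ 72 * (D2 : ℝ) ^ (2 - ε / 16) := by
        have e : (D2 : ℝ) ^ (2 - ε / 16) = D2 * (D2 : ℝ) ^ (1 - ε / 16) := by
          have := hadd2 1 (1 - ε / 16)
          rw [Real.rpow_one] at this
          rw [this]
          congr 1
          ring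
        rw [e]
        nlinarith
      have h3 : 3 * (D2 : ℝ) / R * X.card ≤ 3 * (D2 : ℝ) ^ (2 - ε / 16) := by
        have hRpos : (0 : ℝ) < R := by exact_mod_cast hR1
        calc 3 * (D2 : ℝ) / R * X.card ≤ 3 * (D2 : ℝ) / (D2 : ℝ) ^ (1 - ε / 16) *
              (D2 : ℝ) ^ (2 - ε / 8) := by gcongr
          _ = 3 * (D2 : ℝ) ^ (2 - ε / 16) := by
              rw [mul_div_assoc]
              have e2 : (D2 : ℝ) / (D2 : ℝ) ^ (1 - ε / 16) = (D2 : ℝ) ^ (ε / 16) := by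
                rw [div_eq_iff (by positivity), hadd2]
                rw [show ε / 16 + (1 - ε / 16) = (1 : ℝ) by ring, Real.rpow_one]
              rw [e2, mul_assoc, hadd2]
              congr 2
              ring
      linarith
    have h2 : ((AA.biUnion fun α => (Prs D).filter fun z => rw' α z ∈ X).card : ℝ) ≤
        AA.card * (75 * (D2 : ℝ) ^ (2 - ε / 16)) := by
      refine le_trans (b := ∑ α ∈ AA, (((Prs D).filter fun z => rw' α z ∈ X).card : ℝ))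
        (by exact_mod_cast Finset.card_biUnion_le) ?_
      refine (Finset.sum_le_sum h1).trans ?_
      rw [Finset.sum_const, nsmul_eq_mul]
    have h3 : (AA.card : ℝ) ≤ 9 * (D : ℝ) ^ (2 * η) := by
      have h4 : AA.card ≤ (2 * U + 1) ^ 2 := by
        rw [← card_box]
        exact Finset.card_filter_le _ _
      have h5 : (AA.card : ℝ) ≤ (2 * U + 1) ^ 2 := by exact_mod_cast h4
      have h6 : (D : ℝ) ^ (2 * η) = (D : ℝ) ^ η * (D : ℝ) ^ η := by rw [hadd]; congr 1; ring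
      rw [h6]
      have h7 : (2 * (U : ℝ) + 1) ^ 2 ≤ (3 * (D : ℝ) ^ η) ^ 2 :=
        pow_le_pow_left₀ (by positivity) (by linarith) 2
      nlinarith
    have h4 : (D2 : ℝ) ^ (2 - ε / 16) ≤ 4 * (D : ℝ) ^ (2 - ε / 16 + 2 * η) := by
      calc (D2 : ℝ) ^ (2 - ε / 16) ≤ (2 * (D : ℝ) ^ (1 + η)) ^ (2 - ε / 16) :=
            Real.rpow_le_rpow hD20.le hD2le (by linarith)
        _ = 2 ^ (2 - ε / 16) * (D : ℝ) ^ ((1 + η) * (2 - ε / 16)) := by
            rw [Real.mul_rpow (by norm_num) (by positivity), ← Real.rpow_mul hx0.le]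
        _ ≤ 4 * (D : ℝ) ^ (2 - ε / 16 + 2 * η) := by
            refine mul_le_mul ?_ (hmono _ _ ?_) (by positivity) (by norm_num)
            · calc (2 : ℝ) ^ (2 - ε / 16) ≤ (2 : ℝ) ^ (2 : ℝ) :=
                    Real.rpow_le_rpow_of_exponent_le (by norm_num) (by linarith)
                _ = 4 := by norm_num
            · have : 0 ≤ η * (ε / 16) := by positivity
              nlinarith
    have h5 : ((AA.biUnion fun α => (Prs D).filter fun z => rw' α z ∈ X).card : ℝ) ≤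
        2700 * (D : ℝ) ^ (2 - ε / 32) := by
      refine h2.trans ?_
      calc (AA.card : ℝ) * (75 * (D2 : ℝ) ^ (2 - ε / 16)) ≤
          (9 * (D : ℝ) ^ (2 * η)) * (75 * (4 * (D : ℝ) ^ (2 - ε / 16 + 2 * η))) := by
            gcongr
        _ = 2700 * ((D : ℝ) ^ (2 * η) * (D : ℝ) ^ (2 - ε / 16 + 2 * η)) := by ring
        _ = 2700 * (D : ℝ) ^ (2 - ε / 32) := by
            rw [hadd, hη]
            congr 2
            ring
    refine h5.trans ?_
    have h6 := card_Prs D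
    calc 2700 * (D : ℝ) ^ (2 - ε / 32) = 5400 * (D : ℝ) ^ (2 - ε / 32) / 2 := by ring
      _ ≤ (D : ℝ) ^ (ε / 64) * (D : ℝ) ^ (2 - ε / 32) / 2 := by gcongr
      _ = (D : ℝ) ^ (-(ε / 64)) * ((D : ℝ) ^ 2 / 2) := by
          have e1 : (D : ℝ) ^ (ε / 64) * (D : ℝ) ^ (2 - ε / 32) =
              (D : ℝ) ^ (-(ε / 64)) * (D : ℝ) ^ 2 := by
            rw [hadd, ← Real.rpow_natCast (D : ℝ) 2, hadd]
            congr 1
            push_cast
            ring
          rw [e1]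
          ring
      _ ≤ (D : ℝ) ^ (-(ε / 64)) * (Prs D).card := by gcongr
  · intro z hz hzB α hα hαU
    have hαU' : nm α ≤ U := Nat.le_floor hαU
    have hz' := mem_Prs.1 hz
    have hnotX : rw' α z ∉ X := by
      intro hmem
      apply hzB
      rw [Finset.mem_biUnion]
      refine ⟨α, ?_, Finset.mem_filter.2 ⟨hz, hmem⟩⟩
      rw [hAA, Finset.mem_filter]
      exact ⟨mem_box.2 hαU', hα⟩
    have hnmrw : nm (rw' α z) ≤ D2 := by
      have h5 := nm_comb (s := α.2) (t := -α.1) (U := U) (by unfold nm at hαU'; omega)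
        (by unfold nm at hαU'; omega) hz'.1 hz'.2.1
      have e1 : α.2 * z.1.1 - α.1 * z.2.1 = α.2 * z.1.1 + -α.1 * z.2.1 := by ring
      have e2 : α.2 * z.1.2 - α.1 * z.2.2 = α.2 * z.1.2 + -α.1 * z.2.2 := by ring
      change nm (α.2 * z.1.1 - α.1 * z.2.1, α.2 * z.1.2 - α.1 * z.2.2) ≤ 2 * U * D
      rw [e1, e2]
      exact h5
    obtain ⟨g0, g1, g2, g3⟩ := hX (rw' α z) hnmrw (gcd_rw' hα hz'.2.2) hnotX
    have hlog : Real.log D2 ≤ 2 * Real.log D := by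
      have h1 : (D2 : ℝ) ≤ (D : ℝ) ^ (2 : ℝ) := by
        refine hD2le.trans ?_
        have h2 : (D : ℝ) ^ (2 : ℝ) = (D : ℝ) ^ (1 + η) * (D : ℝ) ^ (1 - η) := by
          rw [hadd]; congr 1; ring
        rw [h2]
        have h3 : (2 : ℝ) ≤ (D : ℝ) ^ (1 - η) :=
          hD2.trans (hmono _ _ (by linarith))
        have h4 : (0 : ℝ) < (D : ℝ) ^ (1 + η) := by positivity
        nlinarith
      have h5 := Real.log_le_log hD20 h1
      rwa [Real.log_rpow hx0] at h5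
    have hlog2 : Real.log D ≤ Real.log D2 := Real.log_le_log hx0 hDD2
    have hεL : 8 * ε * Real.log D2 ≤ 16 * ε * Real.log D := by
      have := mul_le_mul_of_nonneg_left hlog (by positivity : 0 ≤ 8 * ε)
      linarith
    refine ⟨g0, ?_, ?_, ?_⟩
    · have h1 : (1 - 2 * ε) * Real.log D ≤ (1 - 2 * ε) * Real.log D2 :=
        mul_le_mul_of_nonneg_left hlog2 (by linarith)
      have e : nm (x.1, x.2) = nm x := rfl
      rw [e] at g1
      linarith
    · refine le_trans ?_ g2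
      have h1 : min (Real.log ((lf x.1 x.2 (rw' α z)).natAbs : ℝ)) (4 * Real.log D) ≤
          min (Real.log ((lf x.1 x.2 (rw' α z)).natAbs : ℝ)) (4 * Real.log D2) :=
        min_le_min_left _ (by linarith)
      linarith
    · intro h
      have := g3 h
      linarith

end Pool.Agent.W5h18.EP
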