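import Mathlib

/-!
# Lattice points in a box: the vectors on which a primitive linear form is divisible by `m`
-/

set_option autoImplicit false

namespace Pool.Agent.W5h18.EP

open Finset

/-- the linear form -/
def lf (a b : ℤ) (v : ℤ × ℤ) : ℤ := a * v.1 + b * v.2

/-- the box -/
noncomputable def box (D : ℕ) : Finset (ℤ × ℤ) := Icc (-(D : ℤ)) D ×ˢ Icc (-(D : ℤ)) D

/-- the determinant -/
def dt (u v : ℤ × ℤ) : ℤ := u.1 * v.2 - u.2 * v.1

/-- the sup norm -/
def nm (v : ℤ × ℤ) : ℕ := max v.1.natAbs v.2.natAbs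

lemma mem_box {D : ℕ} {v : ℤ × ℤ} : v ∈ box D ↔ nm v ≤ D := by
  unfold box nm
  rw [Finset.mem_product, Finset.mem_Icc, Finset.mem_Icc]
  omega

lemma lf_sub (a b : ℤ) (u v : ℤ × ℤ) : lf a b (u - v) = lf a b u - lf a b v := by
  unfold lf
  simp only [Prod.fst_sub, Prod.snd_sub]
  ring

lemma dvd_dt {a b : ℤ} (hab : IsCoprime a b) {m : ℤ} {u v : ℤ × ℤ} (hu : m ∣ lf a b u)
    (hv : m ∣ lf a b v) : m ∣ dt u v := by
  obtain ⟨x, y, hxy⟩ := hab
  have h1 : m ∣ a * dt u v := by
    have e : a * dt u v = v.2 * lf a b u - u.2 * lf a b v := by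
      unfold dt lf; ring
    rw [e]
    exact dvd_sub (dvd_mul_of_dvd_right hu _) (dvd_mul_of_dvd_right hv _)
  have h2 : m ∣ b * dt u v := by
    have e : b * dt u v = u.1 * lf a b v - v.1 * lf a b u := by
      unfold dt lf; ring
    rw [e]
    exact dvd_sub (dvd_mul_of_dvd_right hv _) (dvd_mul_of_dvd_right hu _)
  have e : dt u v = x * (a * dt u v) + y * (b * dt u v) := by
    calc dt u v = 1 * dt u v := by ring
      _ = (x * a + y * b) * dt u v := by rw [hxy]
      _ = _ := by ring
  rw [e]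
  exact dvd_add (dvd_mul_of_dvd_right h1 _) (dvd_mul_of_dvd_right h2 _)

lemma nm_eq_zero {v : ℤ × ℤ} : nm v = 0 ↔ v = 0 := by
  unfold nm
  constructor
  · intro h
    have h1 : v.1 = 0 := by omega
    have h2 : v.2 = 0 := by omega
    exact Prod.ext h1 h2
  · rintro rfl
    simp

lemma nm_pos {v : ℤ × ℤ} (h : v ≠ 0) : 1 ≤ nm v := by
  rcases Nat.eq_zero_or_pos (nm v) with h0 | h0
  · exact absurd (nm_eq_zero.1 h0) h
  · exact h0

lemma dt_le (u v : ℤ × ℤ) : |dt u v| ≤ 2 * nm u * nm v := by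
  unfold dt nm
  have h1 : |u.1 * v.2| ≤ (max u.1.natAbs u.2.natAbs : ℕ) * (max v.1.natAbs v.2.natAbs : ℕ) := by
    rw [abs_mul]
    refine mul_le_mul ?_ ?_ (abs_nonneg _) (by positivity)
    · rw [Int.abs_eq_natAbs]; exact_mod_cast le_max_left _ _
    · rw [Int.abs_eq_natAbs]; exact_mod_cast le_max_right _ _
  have h2 : |u.2 * v.1| ≤ (max u.1.natAbs u.2.natAbs : ℕ) * (max v.1.natAbs v.2.natAbs : ℕ) := by
    rw [abs_mul]
    refine mul_le_mul ?_ ?_ (abs_nonneg _) (by positivity)
    · rw [Int.abs_eq_natAbs]; exact_mod_cast le_max_right _ _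
    · rw [Int.abs_eq_natAbs]; exact_mod_cast le_max_left _ _
  calc |u.1 * v.2 - u.2 * v.1| ≤ |u.1 * v.2| + |u.2 * v.1| := abs_sub _ _
    _ ≤ _ := by linarith

/-- the coordinate of `v` at the place where `u` is largest -/
def co (u v : ℤ × ℤ) : ℤ := if u.2.natAbs ≤ u.1.natAbs then v.1 else v.2

/-- for parallel vectors the norm of the second is found at the same place -/
lemma nm_of_parallel {u v : ℤ × ℤ} (hu : u ≠ 0) (h : dt u v = 0) : nm v = (co u v).natAbs := by
  unfold dt at h
  have h0 : u.1 * v.2 = u.2 * v.1 := by linarith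
  have h1 : u.1.natAbs * v.2.natAbs = u.2.natAbs * v.1.natAbs := by
    rw [← Int.natAbs_mul, ← Int.natAbs_mul, h0]
  have hu0 := nm_pos hu
  unfold nm at hu0 ⊢
  unfold co
  split_ifs with hc
  · rw [max_eq_left]
    have h2 : 0 < u.1.natAbs := by omega
    by_contra h3
    push Not at h3
    have : u.2.natAbs * v.1.natAbs < u.1.natAbs * v.2.natAbs := by
      calc u.2.natAbs * v.1.natAbs ≤ u.1.natAbs * v.1.natAbs := Nat.mul_le_mul_right _ hc
        _ < u.1.natAbs * v.2.natAbs := Nat.mul_lt_mul_of_pos_left h3 h2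
    omega
  · rw [max_eq_right]
    push Not at hc
    have h2 : 0 < u.2.natAbs := by omega
    by_contra h3
    push Not at h3
    have : u.1.natAbs * v.2.natAbs < u.2.natAbs * v.1.natAbs := by
      calc u.1.natAbs * v.2.natAbs ≤ u.2.natAbs * v.2.natAbs := Nat.mul_le_mul_right _ hc.le
        _ < u.2.natAbs * v.1.natAbs := Nat.mul_lt_mul_of_pos_left h3 h2
    omega

lemma co_sub (u v w : ℤ × ℤ) : co u (v - w) = co u v - co u w := by
  unfold co
  split_ifs <;> simp

lemma co_le {u v : ℤ × ℤ} {D : ℕ} (h : nm v ≤ D) : |co u v| ≤ D := by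
  unfold co nm at *
  split_ifs <;> (rw [abs_le]; constructor <;> omega)

lemma dt_sub (u v w : ℤ × ℤ) : dt u (v - w) = dt u v - dt u w := by
  unfold dt
  simp only [Prod.fst_sub, Prod.snd_sub]
  ring

/-- a vector parallel to a primitive vector is a multiple of it -/
lemma mult_of_parallel {u v : ℤ × ℤ} (hu : Int.gcd u.1 u.2 = 1) (h : dt u v = 0) :
    ∃ k : ℤ, v.1 = k * u.1 ∧ v.2 = k * u.2 := by
  have hc : IsCoprime u.1 u.2 := Int.isCoprime_iff_gcd_eq_one.2 hu
  obtain ⟨x, y, hxy⟩ := hc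
  unfold dt at h
  have h0 : u.1 * v.2 = u.2 * v.1 := by linarith
  refine ⟨x * v.1 + y * v.2, ?_, ?_⟩
  · calc v.1 = (x * u.1 + y * u.2) * v.1 := by rw [hxy, one_mul]
      _ = x * u.1 * v.1 + y * (u.2 * v.1) := by ring
      _ = x * u.1 * v.1 + y * (u.1 * v.2) := by rw [h0]
      _ = _ := by ring
  · calc v.2 = (x * u.1 + y * u.2) * v.2 := by rw [hxy, one_mul]
      _ = x * (u.1 * v.2) + y * u.2 * v.2 := by ring
      _ = x * (u.2 * v.1) + y * u.2 * v.2 := by rw [h0]
      _ = _ := by ring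

/-- **The counting lemma.** -/
theorem count_lattice {a b : ℤ} (hab : IsCoprime a b) (m D G : ℕ) (hm : 1 ≤ m) :
    ((((box D).filter fun v => v ≠ 0 ∧ (m : ℤ) ∣ lf a b v ∧ Int.gcd v.1 v.2 < G).card : ℕ) : ℝ) ≤
      18 * (D : ℝ) ^ 2 / m + 2 * G := by
  classical
  set S' := (box D).filter fun v => v ≠ 0 ∧ (m : ℤ) ∣ lf a b v with hS'
  set S := (box D).filter fun v => v ≠ 0 ∧ (m : ℤ) ∣ lf a b v ∧ Int.gcd v.1 v.2 < G with hS
  have hsub : S ⊆ S' := by
    intro v hv
    rw [hS, Finset.mem_filter] at hv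
    rw [hS', Finset.mem_filter]
    exact ⟨hv.1, hv.2.1, hv.2.2.1⟩
  have hm0 : (0 : ℝ) < m := by exact_mod_cast hm
  rcases S.eq_empty_or_nonempty with he | hne
  · rw [he]
    simp only [Finset.card_empty, Nat.cast_zero]
    positivity
  have hne' : S'.Nonempty := hne.mono hsub
  obtain ⟨u, huS, humin⟩ := Finset.exists_min_image S' nm hne'
  have hu1 : u ∈ box D ∧ u ≠ 0 ∧ (m : ℤ) ∣ lf a b u := by
    rw [hS', Finset.mem_filter] at huS
    exact huS
  obtain ⟨hubox, hu0, hum⟩ := hu1
  have hlam : 1 ≤ nm u := nm_pos hu0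
  have hlamD : nm u ≤ D := mem_box.1 hubox
  by_cases hcase : ∀ w ∈ S, dt u w = 0
  · -- all on a line
    have hg0 : 0 < Int.gcd u.1 u.2 := by
      rw [Nat.pos_iff_ne_zero, Ne, Int.gcd_eq_zero_iff]
      rintro ⟨h1, h2⟩
      exact hu0 (Prod.ext h1 h2)
    set g : ℤ := ((Int.gcd u.1 u.2 : ℕ) : ℤ) with hg
    have hgz : (0 : ℤ) < g := by rw [hg]; exact Int.natCast_pos.2 hg0
    set u' : ℤ × ℤ := (u.1 / g, u.2 / g) with hu'
    have e1 : u.1 = g * (u.1 / g) := (Int.mul_ediv_cancel' (Int.gcd_dvd_left _ _)).symm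
    have e2 : u.2 = g * (u.2 / g) := (Int.mul_ediv_cancel' (Int.gcd_dvd_right _ _)).symm
    have hu'g : Int.gcd u'.1 u'.2 = 1 := Int.gcd_ediv_gcd_ediv_gcd hg0
    have hsub2 : S ⊆ ((Ioo (-(G : ℤ)) G).erase 0).image fun k : ℤ => ((k * u'.1, k * u'.2) : ℤ × ℤ) := by
      intro w hw
      have hdt := hcase w hw
      have hdt' : dt u' w = 0 := by
        have : g * dt u' w = dt u w := by
          unfold dt
          rw [hu']
          simp only
          calc g * (u.1 / g * w.2 - u.2 / g * w.1) = (g * (u.1 / g)) * w.2 - (g * (u.2 / g)) * w.1 := by ring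
            _ = _ := by rw [← e1, ← e2]
        rw [hdt] at this
        rcases mul_eq_zero.1 this with h | h
        · omega
        · exact h
      obtain ⟨k, hk1, hk2⟩ := mult_of_parallel hu'g hdt'
      rw [hS, Finset.mem_filter] at hw
      obtain ⟨_, hw0, _, hwG⟩ := hw
      have hgw : Int.gcd w.1 w.2 = k.natAbs := by
        rw [hk1, hk2, Int.gcd_mul_left, hu'g, mul_one]
      rw [hgw] at hwG
      refine Finset.mem_image.2 ⟨k, ?_, ?_⟩
      · rw [Finset.mem_erase, Finset.mem_Ioo]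
        refine ⟨?_, by omega, by omega⟩
        rintro rfl
        apply hw0
        refine Prod.ext ?_ ?_
        · rw [hk1]; simp
        · rw [hk2]; simp
      · exact Prod.ext hk1.symm hk2.symm
    have hc1 : S.card ≤ 2 * G := by
      refine (Finset.card_le_card hsub2).trans (Finset.card_image_le.trans ?_)
      refine (Finset.card_erase_le).trans ?_
      rw [Int.card_Ioo]
      omega
    have hc2 : (S.card : ℝ) ≤ 2 * G := by exact_mod_cast hc1
    have : 0 ≤ 18 * (D : ℝ) ^ 2 / m := by positivity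
    linarith
  · push Not at hcase
    obtain ⟨w0, hw0, hdt0⟩ := hcase
    have hw0' := hsub hw0
    rw [hS', Finset.mem_filter] at hw0'
    have hmle : m ≤ 2 * nm u * D := by
      have h1 : (m : ℤ) ∣ dt u w0 := dvd_dt hab hum hw0'.2.2
      have h2 : (m : ℤ) ≤ |dt u w0| := by
        have := Int.le_of_dvd (abs_pos.2 hdt0) ((dvd_abs _ _).2 h1)
        exact this
      have h3 := dt_le u w0
      have h4 : nm w0 ≤ D := mem_box.1 hw0'.1
      have h5 : (m : ℤ) ≤ 2 * nm u * nm w0 := h2.trans h3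
      have h6 : m ≤ 2 * nm u * nm w0 := by exact_mod_cast h5
      exact h6.trans (Nat.mul_le_mul_left _ h4)
    set K : ℕ := 2 * nm u * D / m with hK
    set F : ℤ × ℤ → ℤ × ℤ := fun w => (dt u w / m, (co u w + D) / nm u) with hF
    have hinj : Set.InjOn F S := by
      intro w hw w' hw' hww
      have h1 := hsub hw
      have h2 := hsub hw'
      rw [hS', Finset.mem_filter] at h1 h2
      rw [hF] at hww
      simp only [Prod.mk.injEq] at hww
      obtain ⟨hA, hB⟩ := hww
      have hd1 : (m : ℤ) ∣ dt u w := dvd_dt hab hum h1.2.2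
      have hd2 : (m : ℤ) ∣ dt u w' := dvd_dt hab hum h2.2.2
      have hdd : dt u w = dt u w' := by
        rw [← Int.ediv_mul_cancel hd1, ← Int.ediv_mul_cancel hd2, hA]
      by_contra hne2
      have hz : w - w' ≠ 0 := sub_ne_zero.2 hne2
      have hdz : dt u (w - w') = 0 := by rw [dt_sub, hdd, sub_self]
      have hnz := nm_of_parallel hu0 hdz
      have hlz : (m : ℤ) ∣ lf a b (w - w') := by
        rw [lf_sub]
        exact dvd_sub h1.2.2 h2.2.2
      have hge : nm u ≤ nm (w - w') := by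
        by_contra hlt
        push Not at hlt
        have hmem : w - w' ∈ S' := by
          rw [hS', Finset.mem_filter]
          exact ⟨mem_box.2 (hlt.le.trans hlamD), hz, hlz⟩
        exact absurd (humin _ hmem) (by omega)
      rw [hnz, co_sub] at hge
      have h5 : (nm u : ℤ) ≤ |co u w - co u w'| := by
        rw [Int.abs_eq_natAbs]; exact_mod_cast hge
      have hlam' : (0 : ℤ) < nm u := by exact_mod_cast hlam
      have h6 : |co u w - co u w'| < nm u := by
        have e3 := Int.emod_add_mul_ediv (co u w + D) (nm u)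
        have e4 := Int.emod_add_mul_ediv (co u w' + D) (nm u)
        have l1 := Int.emod_nonneg (co u w + D) hlam'.ne'
        have l2 := Int.emod_lt_of_pos (co u w + D) hlam'
        have l3 := Int.emod_nonneg (co u w' + D) hlam'.ne'
        have l4 := Int.emod_lt_of_pos (co u w' + D) hlam'
        rw [hB] at e3
        rw [abs_lt]
        constructor <;> linarith
      omega
    have hmaps : ∀ w ∈ S, F w ∈ Icc (-(K : ℤ)) K ×ˢ Icc (0 : ℤ) ((2 * D / nm u : ℕ) : ℤ) := by
      intro w hw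
      have h1 := hsub hw
      rw [hS', Finset.mem_filter] at h1
      have hwD : nm w ≤ D := mem_box.1 h1.1
      have hd1 : (m : ℤ) ∣ dt u w := dvd_dt hab hum h1.2.2
      have hdle := dt_le u w
      have hdle2 : |dt u w| ≤ ((2 * nm u * D : ℕ) : ℤ) := by
        refine hdle.trans ?_
        push_cast
        have : (nm w : ℤ) ≤ D := by exact_mod_cast hwD
        have h0 : (0 : ℤ) ≤ 2 * nm u := by positivity
        exact mul_le_mul_of_nonneg_left this h0
      obtain ⟨k, hk⟩ := hd1
      have hmz : (0 : ℤ) < m := by exact_mod_cast hm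
      have hkm : dt u w / m = k := by rw [hk]; exact Int.mul_ediv_cancel_left _ hmz.ne'
      have hkK : |k| ≤ K := by
        rw [hK]
        have h3 : k.natAbs * m ≤ 2 * nm u * D := by
          rw [hk, abs_mul, Nat.abs_cast] at hdle2
          have : ((k.natAbs * m : ℕ) : ℤ) ≤ ((2 * nm u * D : ℕ) : ℤ) := by
            rw [Nat.cast_mul, Int.natCast_natAbs, mul_comm]
            exact hdle2
          exact_mod_cast this
        have h4 : k.natAbs ≤ 2 * nm u * D / m := (Nat.le_div_iff_mul_le hm).2 h3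
        rw [Int.abs_eq_natAbs]
        exact_mod_cast h4
      have hco := co_le (u := u) hwD
      rw [abs_le] at hco hkK
      rw [Finset.mem_product, Finset.mem_Icc, Finset.mem_Icc, hF]
      simp only
      rw [hkm]
      refine ⟨hkK, ?_, ?_⟩
      · exact Int.ediv_nonneg (by linarith) (by positivity)
      · have : ((2 * D / nm u : ℕ) : ℤ) = (2 * D : ℤ) / nm u := by push_cast; rfl
        rw [this]
        exact Int.ediv_le_ediv (by exact_mod_cast hlam) (by linarith)
    have hcard := Finset.card_le_card_of_injOn F hmaps hinj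
    rw [Finset.card_product, Int.card_Icc, Int.card_Icc] at hcard
    have e5 : ((K : ℤ) + 1 - -(K : ℤ)).toNat = 2 * K + 1 := by omega
    have e6 : (((2 * D / nm u : ℕ) : ℤ) + 1 - 0).toNat = 2 * D / nm u + 1 := by
      generalize 2 * D / nm u = t
      omega
    rw [e5, e6] at hcard
    have hcard' : (S.card : ℝ) ≤ (2 * K + 1) * ((2 * D / nm u : ℕ) + 1) := by
      exact_mod_cast hcard
    have hlamR : (1 : ℝ) ≤ nm u := by exact_mod_cast hlam
    have hlamDR : (nm u : ℝ) ≤ D := by exact_mod_cast hlamD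
    have hKR : (K : ℝ) ≤ 2 * nm u * D / m := by
      rw [hK]
      refine Nat.cast_div_le.trans ?_
      push_cast
      exact le_rfl
    have hmR : (m : ℝ) ≤ 2 * nm u * D := by exact_mod_cast hmle
    have h1 : (1 : ℝ) ≤ 2 * nm u * D / m := by
      rw [le_div_iff₀ hm0]; linarith
    have h2 : (2 * (K : ℝ) + 1) ≤ 3 * (2 * nm u * D / m) := by linarith
    have h3 : (((2 * D / nm u : ℕ) : ℝ) + 1) ≤ 3 * (D / nm u) := by
      have h4 : ((2 * D / nm u : ℕ) : ℝ) ≤ 2 * D / nm u := by
        refine Nat.cast_div_le.trans ?_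
        push_cast
        exact le_rfl
      have h5 : (1 : ℝ) ≤ D / nm u := by
        rw [le_div_iff₀ (by linarith)]; linarith
      have e7 : (2 * (D : ℝ) / nm u) = 2 * (D / nm u) := by ring
      rw [e7] at h4
      linarith
    have h6 : (S.card : ℝ) ≤ 3 * (2 * nm u * D / m) * (3 * (D / nm u)) := by
      refine hcard'.trans ?_
      exact mul_le_mul h2 h3 (by positivity) (by positivity)
    have e8 : 3 * (2 * (nm u : ℝ) * D / m) * (3 * (D / nm u)) = 18 * (D : ℝ) ^ 2 / m := by
      field_simp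
      ring
    rw [e8] at h6
    have : (0 : ℝ) ≤ 2 * G := by positivity
    linarith

end Pool.Agent.W5h18.EP
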