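import Pool.Agent.Results.MP_4d5ce1_nt.EveryPoint

/-!
# The inequality at every point, for one linear form
-/

set_option autoImplicit false

namespace Pool.Agent.W5h18.EP

open Filter Matrix
open Pool.Agent.Results.MP_4d5ce1_nt.EveryPoint (Ball act hgt)

lemma act_cop (g : SpecialLinearGroup (Fin 2) ℤ) {x : ℤ × ℤ} (hx : IsCoprime x.1 x.2) :
    IsCoprime (act g x).1 (act g x).2 := by
  obtain ⟨u, v, h⟩ := hx
  have hd : g 0 0 * g 1 1 - g 0 1 * g 1 0 = 1 := by
    have := g.det_coe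
    rwa [Matrix.det_fin_two] at this
  refine ⟨u * g 1 1 - v * g 1 0, v * g 0 0 - u * g 0 1, ?_⟩
  unfold act
  linear_combination (u * x.1 + v * x.2) * hd + h

lemma hgt_act_le' {D : ℕ} (hD : 1 ≤ D) {g : SpecialLinearGroup (Fin 2) ℤ} (hg : g ∈ Ball D)
    {x : ℤ × ℤ} (hx : IsCoprime x.1 x.2) :
    hgt (act g x) ≤ Real.log 2 + hgt x + Real.log D := by
  have hz' := mem_Prs.1 (Pool.Agent.Results.MP_4d5ce1_nt.EveryPoint.rows_mem hg)
  have hnx : 1 ≤ nm x := by
    refine nm_pos ?_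
    rintro rfl
    exact not_isCoprime_zero_zero hx
  have hnx0 : (0 : ℝ) < nm x := by exact_mod_cast hnx
  have hx0 : (0 : ℝ) < D := by exact_mod_cast hD
  have h1 : nm (act g x) ≤ 2 * nm x * D := by
    have e1 : act g x = (lf x.1 x.2 (Pool.Agent.Results.MP_4d5ce1_nt.EveryPoint.rows g).1,
        lf x.1 x.2 (Pool.Agent.Results.MP_4d5ce1_nt.EveryPoint.rows g).2) := by
      unfold act lf Pool.Agent.Results.MP_4d5ce1_nt.EveryPoint.rows
      refine Prod.ext ?_ ?_ <;> simp only <;> ring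
    rw [e1]
    have h2 := lf_le (a := x.1) (b := x.2) hz'.1
    have h3 := lf_le (a := x.1) (b := x.2) hz'.2.1
    exact max_le h2 h3
  have h4 : ((nm (act g x) : ℕ) : ℝ) ≤ 2 * nm x * D := by exact_mod_cast h1
  have h5 : hgt (act g x) = Real.log (nm (act g x)) := rfl
  have h5' : hgt x = Real.log (nm x) := rfl
  rw [h5, h5']
  have h0 : 0 < nm (act g x) := by
    refine nm_pos ?_
    intro h
    have := act_cop g hx
    rw [h] at this
    exact not_isCoprime_zero_zero this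
  have h6 : (0 : ℝ) < nm (act g x) := by exact_mod_cast h0
  have h7 := Real.log_le_log h6 h4
  rwa [Real.log_mul (by positivity) hx0.ne', Real.log_mul (by norm_num) hnx0.ne'] at h7

/-- The inequalities at the point `y` for one point `β` of small height and a set `T`. -/
def OneGood (ε η A : ℝ) (D : ℕ) (y : ℤ × ℤ) : Prop :=
  ∀ (β : ℤ × ℤ) (T : Finset ℕ), IsCoprime β.1 β.2 → hgt β ≤ η * Real.log D →
    ∑ p ∈ T, Real.log (p : ℝ) ≤ η * Real.log D →
    y.1 * β.2 - y.2 * β.1 ≠ 0 ∧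
      (1 - ε) * min (hgt y) (4 * Real.log D) ≤
        ∑ p ∈ (y.1 * β.2 - y.2 * β.1).natAbs.primeFactors \ T, Real.log p ∧
      (A < 5 → (1 - ε) * hgt y ≤
        ∑ p ∈ (y.1 * β.2 - y.2 * β.1).natAbs.primeFactors \ T, Real.log p)

/-- **The theorem for one form.** -/
theorem one_main (A ε : ℝ) (hA : 0 ≤ A) (hε : 0 < ε) (hε1 : ε ≤ 1) :
    ∃ δ η : ℝ, 0 < δ ∧ 0 < η ∧ ∀ᶠ D : ℕ in atTop,
      (Ball D).Finite ∧ (D : ℝ) ^ 2 / 2 ≤ ((Ball D).ncard : ℝ) ∧
      ∀ x : ℤ × ℤ, IsCoprime x.1 x.2 → hgt x ≤ A * Real.log D →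
        (({g : SpecialLinearGroup (Fin 2) ℤ | g ∈ Ball D ∧
          ¬ (IsCoprime (act g x).1 (act g x).2 ∧
            η * Real.log D < hgt (act g x) ∧
            hgt (act g x) ≤ Real.log 2 + (A + 1) * Real.log D ∧
            OneGood ε η A D (act g x))}.ncard : ℕ) : ℝ) ≤
          (D : ℝ) ^ (-δ) * (Ball D).ncard := by
  obtain ⟨δ, η, hδ, hη, h⟩ :=
    Pool.Agent.Results.MP_4d5ce1_nt.EveryPoint.result A ε hA hε hε1
  refine ⟨δ, η, hδ, hη, ?_⟩
  filter_upwards [h, eventually_ge_atTop 2] with D hD hD2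
  obtain ⟨hfin, hcard, hmain⟩ := hD
  refine ⟨hfin, hcard, fun x hx hxA => ?_⟩
  have hx2 : (2 : ℝ) ≤ D := by exact_mod_cast hD2
  have hL0 : 0 < Real.log D := Real.log_pos (by linarith)
  refine le_trans ?_ (hmain x hx hxA)
  have hsub : {g : SpecialLinearGroup (Fin 2) ℤ | g ∈ Ball D ∧
          ¬ (IsCoprime (act g x).1 (act g x).2 ∧
            η * Real.log D < hgt (act g x) ∧
            hgt (act g x) ≤ Real.log 2 + (A + 1) * Real.log D ∧
            OneGood ε η A D (act g x))} ⊆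
      {g : SpecialLinearGroup (Fin 2) ℤ | g ∈ Ball D ∧
          ¬ Pool.Agent.Results.MP_4d5ce1_nt.EveryPoint.Good ε η A D (act g x)} := by
    rintro g ⟨hgB, hnot⟩
    refine ⟨hgB, fun hgood => hnot ?_⟩
    have hc := act_cop g hx
    have hup : hgt (act g x) ≤ Real.log 2 + (A + 1) * Real.log D := by
      have h1 := hgt_act_le' (by omega : 1 ≤ D) hgB hx
      linarith
    have hone : OneGood ε η A D (act g x) := by
      intro β T hβ1 hβ2 hT
      obtain ⟨g1, g2, g3, -⟩ := hgood 1 (fun _ => β) T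
        ⟨fun _ => ⟨hβ1, hβ2⟩, fun i j hij => absurd (Subsingleton.elim i j) hij, hT⟩
      unfold Pool.Agent.Results.MP_4d5ce1_nt.EveryPoint.N1 at g2 g3
      simp only [Finset.univ_unique, Finset.sum_singleton, Nat.cast_one, mul_one] at g2 g3
      exact ⟨g1 0, g2, g3⟩
    refine ⟨hc, ?_, hup, hone⟩
    by_contra hcon
    push Not at hcon
    have h1 := (hone (act g x) ∅ hc hcon (by
      rw [Finset.sum_empty]
      positivity)).1
    apply h1
    ring
  exact_mod_cast Set.ncard_le_ncard hsub (hfin.subset fun g hg => hg.1)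

end Pool.Agent.W5h18.EP
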