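import Pool.Agent.W5h18.EP.Asym

/-!
# Pairs of vectors of determinant one
-/

set_option autoImplicit false

namespace Pool.Agent.W5h18.EP

open Finset Filter

/-- a primitive vector is the first row of a matrix of determinant one of the same size -/
lemma exists_completion {v : ℤ × ℤ} (hv : Int.gcd v.1 v.2 = 1) : ∃ w : ℤ × ℤ, dt v w = 1 ∧ nm w ≤ nm v := by
  obtain ⟨v1, v2⟩ := v
  simp only at hv
  obtain ⟨x, y, hxy⟩ := Int.isCoprime_iff_gcd_eq_one.2 hv
  by_cases h1 : v1 = 0
  · subst h1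
    rw [mul_zero, zero_add] at hxy
    have h2 : v2 = 1 ∨ v2 = -1 := Int.isUnit_iff.1 (IsUnit.of_mul_eq_one y (by rw [mul_comm]; exact hxy))
    refine ⟨(-v2, 0), ?_, ?_⟩
    · unfold dt
      rcases h2 with rfl | rfl <;> norm_num
    · unfold nm
      simp
  · have hpos : 0 < |v1| := abs_pos.2 h1
    set w1 : ℤ := (-y) % |v1| with hw1
    have hw1n : 0 ≤ w1 := Int.emod_nonneg _ hpos.ne'
    have hw1l : w1 < |v1| := Int.emod_lt_of_pos _ hpos
    have hw1l' : w1 < (v1.natAbs : ℤ) := by rw [← Int.abs_eq_natAbs]; exact hw1l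
    have hdvd : v1 ∣ 1 + v2 * w1 := by
      have h3 : |v1| ∣ (-y) - w1 := Int.dvd_self_sub_emod
      have h4 : v1 ∣ (-y) - w1 := (abs_dvd _ _).1 h3
      have e : 1 + v2 * w1 = x * v1 - v2 * ((-y) - w1) := by
        linear_combination -hxy
      rw [e]
      exact dvd_sub (dvd_mul_left _ _) (dvd_mul_of_dvd_right h4 _)
    obtain ⟨w2, hw2⟩ := hdvd
    refine ⟨(w1, w2), ?_, ?_⟩
    · unfold dt
      simp only
      linarith
    · unfold nm
      simp only
      have h5 : w1.natAbs ≤ v1.natAbs := by omega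
      have h6 : w2.natAbs ≤ max v1.natAbs v2.natAbs := by
        by_cases h7 : v2 = 0
        · subst h7
          rw [zero_mul, add_zero] at hw2
          have h8 : w2 = 1 ∨ w2 = -1 :=
            Int.isUnit_iff.1 (IsUnit.of_mul_eq_one v1 (by rw [mul_comm]; exact hw2.symm))
          have : 1 ≤ v1.natAbs := Int.natAbs_pos.2 h1
          rcases h8 with rfl | rfl <;> simp [this]
        · refine le_trans ?_ (le_max_right _ _)
          have h8 : v1.natAbs * w2.natAbs ≤ 1 + v2.natAbs * w1.natAbs := by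
            rw [← Int.natAbs_mul, ← hw2, ← Int.natAbs_mul]
            exact Int.natAbs_add_le 1 _
          have h9 : w1.natAbs + 1 ≤ v1.natAbs := by omega
          have h10 : 1 ≤ v2.natAbs := Int.natAbs_pos.2 h7
          have h11 : v1.natAbs * w2.natAbs ≤ v1.natAbs * v2.natAbs := by
            have : v2.natAbs * (w1.natAbs + 1) ≤ v2.natAbs * v1.natAbs := Nat.mul_le_mul_left _ h9
            nlinarith
          exact Nat.le_of_mul_le_mul_left h11 (Int.natAbs_pos.2 h1)
      exact max_le (h5.trans (le_max_left _ _)) h6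

open Classical in
/-- pairs of vectors in the box with determinant one -/
noncomputable def Prs (D : ℕ) : Finset ((ℤ × ℤ) × (ℤ × ℤ)) :=
  (box D ×ˢ box D).filter fun z => dt z.1 z.2 = 1

lemma mem_Prs {D : ℕ} {z : (ℤ × ℤ) × (ℤ × ℤ)} :
    z ∈ Prs D ↔ nm z.1 ≤ D ∧ nm z.2 ≤ D ∧ dt z.1 z.2 = 1 := by
  unfold Prs
  rw [Finset.mem_filter, Finset.mem_product, mem_box, mem_box]
  tauto

lemma prim_of_dt {v w : ℤ × ℤ} (h : dt v w = 1) : Int.gcd v.1 v.2 = 1 := by
  rw [← Int.isCoprime_iff_gcd_eq_one]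
  refine ⟨w.2, -w.1, ?_⟩
  unfold dt at h
  linarith

lemma ne_zero_of_dt {v w : ℤ × ℤ} (h : dt v w = 1) : v ≠ 0 := by
  rintro rfl
  unfold dt at h
  simp at h

open Classical in
/-- the number of completions of a vector -/
lemma card_completions {v : ℤ × ℤ} (hv : v ≠ 0) (D : ℕ) (hD : nm v ≤ D) :
    (((box D).filter fun w => dt v w = 1).card : ℝ) ≤ 3 * D / nm v := by
  have hlam : 1 ≤ nm v := nm_pos hv
  have hlam' : (0 : ℤ) < nm v := by exact_mod_cast hlam
  have hcard : ((box D).filter fun w => dt v w = 1).card ≤ (Icc (0 : ℤ) ((2 * D / nm v : ℕ) : ℤ)).card := by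
    refine Finset.card_le_card_of_injOn (fun w => (co v w + D) / nm v) ?_ ?_
    · intro w hw
      have hw' := Finset.mem_coe.1 hw
      rw [Finset.mem_filter] at hw'
      have hco := co_le (u := v) (mem_box.1 hw'.1)
      rw [abs_le] at hco
      refine Finset.mem_coe.2 (Finset.mem_Icc.2 ⟨?_, ?_⟩)
      · exact Int.ediv_nonneg (by linarith) (by positivity)
      · have : ((2 * D / nm v : ℕ) : ℤ) = (2 * D : ℤ) / nm v := by push_cast; rfl
        rw [this]
        exact Int.ediv_le_ediv hlam' (by linarith)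
    · intro w hw w' hw' hww
      have h1 := Finset.mem_coe.1 hw
      have h2 := Finset.mem_coe.1 hw'
      rw [Finset.mem_filter] at h1 h2
      simp only at hww
      by_contra hne
      have hz : w - w' ≠ 0 := sub_ne_zero.2 hne
      have hdz : dt v (w - w') = 0 := by rw [dt_sub, h1.2, h2.2, sub_self]
      have hnz := nm_of_parallel hv hdz
      have hge : nm v ≤ nm (w - w') := by
        obtain ⟨k, hk1, hk2⟩ := mult_of_parallel (prim_of_dt h1.2) hdz
        have hk0 : k ≠ 0 := by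
          rintro rfl
          apply hz
          exact Prod.ext (by rw [hk1]; simp) (by rw [hk2]; simp)
        have hk : 1 ≤ k.natAbs := Int.natAbs_pos.2 hk0
        unfold nm
        rw [hk1, hk2, Int.natAbs_mul, Int.natAbs_mul]
        refine max_le ((Nat.le_mul_of_pos_left _ hk).trans (le_max_left _ _))
          ((Nat.le_mul_of_pos_left _ hk).trans (le_max_right _ _))
      rw [hnz, co_sub] at hge
      have h5 : (nm v : ℤ) ≤ |co v w - co v w'| := by
        rw [Int.abs_eq_natAbs]; exact_mod_cast hge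
      have h6 : |co v w - co v w'| < nm v := by
        have e3 := Int.emod_add_mul_ediv (co v w + D) (nm v)
        have e4 := Int.emod_add_mul_ediv (co v w' + D) (nm v)
        have l1 := Int.emod_nonneg (co v w + D) hlam'.ne'
        have l2 := Int.emod_lt_of_pos (co v w + D) hlam'
        have l3 := Int.emod_nonneg (co v w' + D) hlam'.ne'
        have l4 := Int.emod_lt_of_pos (co v w' + D) hlam'
        rw [hww] at e3
        rw [abs_lt]
        constructor <;> linarith
      omega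
  rw [Int.card_Icc] at hcard
  have e6 : (((2 * D / nm v : ℕ) : ℤ) + 1 - 0).toNat = 2 * D / nm v + 1 := by
    generalize 2 * D / nm v = t
    omega
  rw [e6] at hcard
  have h1 : (((box D).filter fun w => dt v w = 1).card : ℝ) ≤ ((2 * D / nm v : ℕ) : ℝ) + 1 := by
    exact_mod_cast hcard
  have hlamR : (1 : ℝ) ≤ nm v := by exact_mod_cast hlam
  have hDR : (nm v : ℝ) ≤ D := by exact_mod_cast hD
  have h2 : ((2 * D / nm v : ℕ) : ℝ) ≤ 2 * D / nm v := by
    refine Nat.cast_div_le.trans ?_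
    push_cast
    exact le_rfl
  have h3 : (1 : ℝ) ≤ D / nm v := by rw [le_div_iff₀ (by linarith)]; linarith
  have e7 : (2 * (D : ℝ) / nm v) = 2 * (D / nm v) := by ring
  have e8 : (3 * (D : ℝ) / nm v) = 3 * (D / nm v) := by ring
  rw [e7] at h2
  rw [e8]
  linarith

/-- the vectors of a given norm -/
lemma card_shell (R k : ℕ) (hk : 1 ≤ k) : ((box R).filter fun v => nm v = k).card ≤ 12 * k := by
  classical
  have hsub : ((box R).filter fun v => nm v = k) ⊆
      (({(k : ℤ), -(k : ℤ)} : Finset ℤ) ×ˢ Icc (-(k : ℤ)) k) ∪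
        (Icc (-(k : ℤ)) k ×ˢ ({(k : ℤ), -(k : ℤ)} : Finset ℤ)) := by
    intro v hv
    rw [Finset.mem_filter] at hv
    obtain ⟨_, hv⟩ := hv
    unfold nm at hv
    rw [Finset.mem_union, Finset.mem_product, Finset.mem_product, Finset.mem_insert,
      Finset.mem_singleton, Finset.mem_Icc, Finset.mem_insert, Finset.mem_singleton, Finset.mem_Icc]
    omega
  refine (Finset.card_le_card hsub).trans ((Finset.card_union_le _ _).trans ?_)
  rw [Finset.card_product, Finset.card_product, Int.card_Icc]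
  have h1 : (({(k : ℤ), -(k : ℤ)} : Finset ℤ)).card ≤ 2 := Finset.card_le_two
  have h2 : ((k : ℤ) + 1 - -(k : ℤ)).toNat = 2 * k + 1 := by omega
  rw [h2]
  nlinarith

/-- the sum of the inverse norms -/
lemma sum_inv_nm (R : ℕ) : ∑ v ∈ (box R).filter (fun v => v ≠ 0), (1 : ℝ) / nm v ≤ 12 * R := by
  classical
  have h1 : ∑ v ∈ (box R).filter (fun v => v ≠ 0), (1 : ℝ) / nm v =
      ∑ k ∈ Icc 1 R, ∑ v ∈ ((box R).filter fun v => v ≠ 0).filter (fun v => nm v = k), (1 : ℝ) / nm v := by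
    rw [Finset.sum_fiberwise_of_maps_to]
    intro v hv
    rw [Finset.mem_filter] at hv
    exact Finset.mem_Icc.2 ⟨nm_pos hv.2, mem_box.1 hv.1⟩
  rw [h1]
  have h2 : ∀ k ∈ Icc 1 R, ∑ v ∈ ((box R).filter fun v => v ≠ 0).filter (fun v => nm v = k), (1 : ℝ) / nm v ≤ 12 := by
    intro k hk
    have hk1 : 1 ≤ k := (Finset.mem_Icc.1 hk).1
    have hkR : (0 : ℝ) < k := by exact_mod_cast hk1
    calc ∑ v ∈ ((box R).filter fun v => v ≠ 0).filter (fun v => nm v = k), (1 : ℝ) / nm v =
        ∑ _v ∈ ((box R).filter fun v => v ≠ 0).filter (fun v => nm v = k), (1 : ℝ) / k := by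
          refine Finset.sum_congr rfl fun v hv => ?_
          rw [(Finset.mem_filter.1 hv).2]
      _ = ((((box R).filter fun v => v ≠ 0).filter (fun v => nm v = k)).card : ℝ) * (1 / k) := by
          rw [Finset.sum_const, nsmul_eq_mul]
      _ ≤ (12 * k) * (1 / k) := by
          refine mul_le_mul_of_nonneg_right ?_ (by positivity)
          have h3 : (((box R).filter fun v => v ≠ 0).filter (fun v => nm v = k)).card ≤ 12 * k := by
            refine le_trans (Finset.card_le_card ?_) (card_shell R k hk1)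
            intro v hv
            rw [Finset.mem_filter, Finset.mem_filter] at hv
            exact Finset.mem_filter.2 ⟨hv.1.1, hv.2⟩
          exact_mod_cast h3
      _ = 12 := by field_simp
  calc ∑ k ∈ Icc 1 R, ∑ v ∈ ((box R).filter fun v => v ≠ 0).filter (fun v => nm v = k), (1 : ℝ) / nm v ≤
      ∑ _k ∈ Icc 1 R, (12 : ℝ) := Finset.sum_le_sum h2
    _ = 12 * R := by
        rw [Finset.sum_const, Nat.card_Icc, nsmul_eq_mul]
        have : R + 1 - 1 = R := by omega
        rw [this]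
        ring

open Classical in
/-- few pairs have their first vector in a small set -/
lemma card_bad_pairs (X : Finset (ℤ × ℤ)) (D R : ℕ) (hR : 1 ≤ R) :
    (((Prs D).filter fun z => z.1 ∈ X).card : ℝ) ≤ 36 * D * R + 3 * D / R * X.card := by
  set V : Finset (ℤ × ℤ) := (box D).filter fun v => v ≠ 0 ∧ (v ∈ X ∨ nm v ≤ R) with hV
  have h1 : ((Prs D).filter fun z => z.1 ∈ X).card ≤
      ∑ v ∈ (box D).filter (fun v => v ≠ 0 ∧ v ∈ X), ((box D).filter fun w => dt v w = 1).card := by
    have hmaps : ∀ z ∈ (Prs D).filter (fun z => z.1 ∈ X), z.1 ∈ (box D).filter fun v => v ≠ 0 ∧ v ∈ X := by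
      intro z hz
      rw [Finset.mem_filter, mem_Prs] at hz
      rw [Finset.mem_filter]
      exact ⟨mem_box.2 hz.1.1, ne_zero_of_dt hz.1.2.2, hz.2⟩
    rw [Finset.card_eq_sum_card_fiberwise (f := fun z : (ℤ × ℤ) × (ℤ × ℤ) => z.1) hmaps]
    refine Finset.sum_le_sum fun v hv => ?_
    refine Finset.card_le_card_of_injOn (fun z => z.2) ?_ ?_
    · intro z hz
      have hz' := Finset.mem_coe.1 hz
      rw [Finset.mem_filter, Finset.mem_filter, mem_Prs] at hz'
      refine Finset.mem_coe.2 (Finset.mem_filter.2 ⟨mem_box.2 hz'.1.1.2.1, ?_⟩)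
      rw [← hz'.2]
      exact hz'.1.1.2.2
    · intro z hz y hy hzy
      have hz' := Finset.mem_coe.1 hz
      have hy' := Finset.mem_coe.1 hy
      rw [Finset.mem_filter] at hz' hy'
      exact Prod.ext (by rw [hz'.2, hy'.2]) hzy
  have h2 : (((Prs D).filter fun z => z.1 ∈ X).card : ℝ) ≤
      ∑ v ∈ (box D).filter (fun v => v ≠ 0 ∧ v ∈ X), 3 * (D : ℝ) / nm v := by
    refine le_trans (b := ((∑ v ∈ (box D).filter (fun v => v ≠ 0 ∧ v ∈ X),
      ((box D).filter fun w => dt v w = 1).card : ℕ) : ℝ)) (by exact_mod_cast h1) ?_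
    rw [Nat.cast_sum]
    refine Finset.sum_le_sum fun v hv => ?_
    rw [Finset.mem_filter] at hv
    exact card_completions hv.2.1 D (mem_box.1 hv.1)
  refine h2.trans ?_
  have hR0 : (0 : ℝ) < R := by exact_mod_cast hR
  have h3 : ∀ v ∈ (box D).filter (fun v => v ≠ 0 ∧ v ∈ X), 3 * (D : ℝ) / nm v ≤
      (if nm v ≤ R then 3 * (D : ℝ) * (1 / nm v) else 0) + 3 * D / R := by
    intro v hv
    rw [Finset.mem_filter] at hv
    have hn : (0 : ℝ) < nm v := by exact_mod_cast nm_pos hv.2.1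
    split_ifs with hc
    · have : 0 ≤ 3 * (D : ℝ) / R := by positivity
      have e : 3 * (D : ℝ) * (1 / nm v) = 3 * D / nm v := by ring
      linarith
    · push Not at hc
      have : (R : ℝ) ≤ nm v := by exact_mod_cast hc.le
      rw [zero_add]
      exact div_le_div_of_nonneg_left (by positivity) hR0 this
  refine (Finset.sum_le_sum h3).trans ?_
  rw [Finset.sum_add_distrib]
  refine add_le_add ?_ ?_
  · rw [← Finset.sum_filter, ← Finset.mul_sum]
    have h4 : ∑ v ∈ ((box D).filter fun v => v ≠ 0 ∧ v ∈ X).filter (fun v => nm v ≤ R), (1 : ℝ) / nm v ≤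
        ∑ v ∈ (box R).filter (fun v => v ≠ 0), (1 : ℝ) / nm v := by
      refine Finset.sum_le_sum_of_subset_of_nonneg ?_ fun v _ _ => by positivity
      intro v hv
      rw [Finset.mem_filter, Finset.mem_filter] at hv
      exact Finset.mem_filter.2 ⟨mem_box.2 hv.2, hv.1.2.1⟩
    have h5 := sum_inv_nm R
    calc 3 * (D : ℝ) * ∑ v ∈ ((box D).filter fun v => v ≠ 0 ∧ v ∈ X).filter (fun v => nm v ≤ R),
        (1 : ℝ) / nm v ≤ 3 * D * (12 * R) :=
          mul_le_mul_of_nonneg_left (h4.trans h5) (by positivity)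
      _ = 36 * D * R := by ring
  · rw [Finset.sum_const, nsmul_eq_mul, mul_comm]
    refine mul_le_mul_of_nonneg_left ?_ (by positivity)
    have : ((box D).filter fun v => v ≠ 0 ∧ v ∈ X).card ≤ X.card := by
      refine Finset.card_le_card ?_
      intro v hv
      exact (Finset.mem_filter.1 hv).2.2
    exact_mod_cast this

/-- the row vector `(α.2, -α.1) g` for the matrix `g` with the rows `z.1`, `z.2` -/
def rw' (α : ℤ × ℤ) (z : (ℤ × ℤ) × (ℤ × ℤ)) : ℤ × ℤ :=
  (α.2 * z.1.1 - α.1 * z.2.1, α.2 * z.1.2 - α.1 * z.2.2)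

lemma nm_comb {s t : ℤ} {U D : ℕ} {v w : ℤ × ℤ} (hs : s.natAbs ≤ U) (ht : t.natAbs ≤ U)
    (hv : nm v ≤ D) (hw : nm w ≤ D) : nm (s * v.1 + t * w.1, s * v.2 + t * w.2) ≤ 2 * U * D := by
  unfold nm at *
  simp only
  have h1 : ∀ x y : ℤ, x.natAbs ≤ D → y.natAbs ≤ D → (s * x + t * y).natAbs ≤ 2 * U * D := by
    intro x y hx hy
    calc (s * x + t * y).natAbs ≤ (s * x).natAbs + (t * y).natAbs := Int.natAbs_add_le _ _
      _ = s.natAbs * x.natAbs + t.natAbs * y.natAbs := by rw [Int.natAbs_mul, Int.natAbs_mul]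
      _ ≤ U * D + U * D := Nat.add_le_add (Nat.mul_le_mul hs hx) (Nat.mul_le_mul ht hy)
      _ = _ := by ring
  refine max_le (h1 _ _ ?_ ?_) (h1 _ _ ?_ ?_) <;> omega

open Classical in
/-- few matrices have a bad row for a given point -/
lemma card_bad_alpha {α : ℤ × ℤ} (hα : Int.gcd α.1 α.2 = 1) {U D R : ℕ} (hαU : nm α ≤ U)
    (hR : 1 ≤ R) (X : Finset (ℤ × ℤ)) :
    (((Prs D).filter fun z => rw' α z ∈ X).card : ℝ) ≤
      36 * (2 * U * D : ℕ) * R + 3 * (2 * U * D : ℕ) / R * X.card := by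
  refine le_trans ?_ (card_bad_pairs X (2 * U * D) R hR)
  have hα' : Int.gcd (α.2, -α.1).1 (α.2, -α.1).2 = 1 := by
    simp only [Int.gcd_neg]
    rw [Int.gcd_comm]
    exact hα
  obtain ⟨β, hβ1, hβ2⟩ := exists_completion hα'
  have hnα : nm (α.2, -α.1) = nm α := by
    unfold nm
    simp only [Int.natAbs_neg]
    exact max_comm _ _
  rw [hnα] at hβ2
  unfold dt at hβ1
  simp only at hβ1
  have key : ((Prs D).filter fun z => rw' α z ∈ X).card ≤
      ((Prs (2 * U * D)).filter fun z => z.1 ∈ X).card := by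
    refine Finset.card_le_card_of_injOn
      (fun z => (rw' α z, (β.1 * z.1.1 + β.2 * z.2.1, β.1 * z.1.2 + β.2 * z.2.2))) ?_ ?_
    · intro z hz
      have hz' := Finset.mem_coe.1 hz
      rw [Finset.mem_filter, mem_Prs] at hz'
      obtain ⟨⟨h1, h2, h3⟩, h4⟩ := hz'
      refine Finset.mem_coe.2 (Finset.mem_filter.2 ⟨mem_Prs.2 ⟨?_, ?_, ?_⟩, h4⟩)
      · have h5 := nm_comb (s := α.2) (t := -α.1) (U := U) (by unfold nm at hαU; omega)
          (by unfold nm at hαU; omega) h1 h2
        have e1 : α.2 * z.1.1 - α.1 * z.2.1 = α.2 * z.1.1 + -α.1 * z.2.1 := by ring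
        have e2 : α.2 * z.1.2 - α.1 * z.2.2 = α.2 * z.1.2 + -α.1 * z.2.2 := by ring
        change nm (α.2 * z.1.1 - α.1 * z.2.1, α.2 * z.1.2 - α.1 * z.2.2) ≤ 2 * U * D
        rw [e1, e2]
        exact h5
      · have hβU : nm β ≤ U := hβ2.trans hαU
        exact nm_comb (by unfold nm at hβU; omega) (by unfold nm at hβU; omega) h1 h2
      · unfold rw' dt at *
        simp only
        linear_combination (α.2 * β.2 + α.1 * β.1) * h3 + hβ1
    · intro z hz y hy hzy
      unfold rw' at hzy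
      simp only [Prod.mk.injEq] at hzy
      obtain ⟨⟨h1, h2⟩, h3, h4⟩ := hzy
      refine Prod.ext (Prod.ext ?_ ?_) (Prod.ext ?_ ?_)
      · linear_combination (-(z.1.1 - y.1.1)) * hβ1 + β.2 * h1 + α.1 * h3
      · linear_combination (-(z.1.2 - y.1.2)) * hβ1 + β.2 * h2 + α.1 * h4
      · linear_combination (-(z.2.1 - y.2.1)) * hβ1 - β.1 * h1 + α.2 * h3
      · linear_combination (-(z.2.2 - y.2.2)) * hβ1 - β.1 * h2 + α.2 * h4
  exact_mod_cast key

end Pool.Agent.W5h18.EP
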