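import Pool.Agent.W5h18.EP.Arith

/-!
# The exceptional vectors for one linear form
-/

set_option autoImplicit false

namespace Pool.Agent.W5h18.EP

open Finset

open Classical in
/-- a square divisor of medium size -/
noncomputable def X2 (a b : ℤ) (D E Q : ℕ) : Finset (ℤ × ℤ) :=
  (box D).filter fun v => v ≠ 0 ∧ Int.gcd v.1 v.2 < 2 ∧ ∃ e : ℕ, E ≤ e ∧ e ≤ Q ∧ ((e : ℤ) ^ 2) ∣ lf a b v

open Classical in
/-- a small value -/
noncomputable def X3 (a b : ℤ) (D E : ℕ) : Finset (ℤ × ℤ) :=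
  (box D).filter fun v => (lf a b v).natAbs * E ≤ nm (a, b) * D

open Classical in
/-- nearly a power -/
noncomputable def X4 (a b : ℤ) (D M j : ℕ) : Finset (ℤ × ℤ) :=
  (box D).filter fun v => ∃ (m : ℤ) (r : ℕ), m ≠ 0 ∧ |m| ≤ M ∧ lf a b v = m * (r : ℤ) ^ j

lemma card_X2 {a b : ℤ} (hab : IsCoprime a b) (D E Q : ℕ) (hE : 1 ≤ E) :
    ((X2 a b D E Q).card : ℝ) ≤ 36 * (D : ℝ) ^ 2 / E + 4 * Q := by
  classical
  have hsub : X2 a b D E Q ⊆ (Ioo (E - 1) (Q + 1)).biUnion fun e : ℕ =>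
      (box D).filter fun v => v ≠ 0 ∧ ((e ^ 2 : ℕ) : ℤ) ∣ lf a b v ∧ Int.gcd v.1 v.2 < 2 := by
    intro v hv
    unfold X2 at hv
    rw [Finset.mem_filter] at hv
    obtain ⟨h1, h2, h3, e, h4, h5, h6⟩ := hv
    rw [Finset.mem_biUnion]
    refine ⟨e, Finset.mem_Ioo.2 ⟨by omega, by omega⟩, Finset.mem_filter.2 ⟨h1, h2, ?_, h3⟩⟩
    push_cast
    exact h6
  have h1 : ((X2 a b D E Q).card : ℝ) ≤ ∑ e ∈ Ioo (E - 1) (Q + 1),
      (18 * (D : ℝ) ^ 2 / ((e ^ 2 : ℕ) : ℝ) + 2 * (2 : ℕ)) := by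
    refine le_trans (b := (((Ioo (E - 1) (Q + 1)).biUnion fun e : ℕ =>
      (box D).filter fun v => v ≠ 0 ∧ ((e ^ 2 : ℕ) : ℤ) ∣ lf a b v ∧ Int.gcd v.1 v.2 < 2).card : ℝ))
      (by exact_mod_cast Finset.card_le_card hsub) ?_
    refine le_trans (b := ((∑ e ∈ Ioo (E - 1) (Q + 1), ((box D).filter fun v => v ≠ 0 ∧
      ((e ^ 2 : ℕ) : ℤ) ∣ lf a b v ∧ Int.gcd v.1 v.2 < 2).card : ℕ) : ℝ))
      (by exact_mod_cast Finset.card_biUnion_le) ?_
    push_cast
    refine Finset.sum_le_sum fun e he => ?_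
    rw [Finset.mem_Ioo] at he
    have he1 : 1 ≤ e ^ 2 := Nat.one_le_pow _ _ (by omega)
    have := count_lattice hab (e ^ 2) D 2 he1
    push_cast at this
    exact this
  refine h1.trans ?_
  rw [Finset.sum_add_distrib, Finset.sum_const, nsmul_eq_mul]
  have h2 : ∑ e ∈ Ioo (E - 1) (Q + 1), 18 * (D : ℝ) ^ 2 / ((e ^ 2 : ℕ) : ℝ) ≤ 36 * (D : ℝ) ^ 2 / E := by
    have h3 : ∑ e ∈ Ioo (E - 1) (Q + 1), (((e : ℝ) ^ 2)⁻¹) ≤ 2 / ((E - 1 : ℕ) + 1 : ℝ) :=
      sum_Ioo_inv_sq_le (α := ℝ) (E - 1) (Q + 1)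
    have h4 : ((E - 1 : ℕ) + 1 : ℝ) = E := by
      have : E - 1 + 1 = E := by omega
      exact_mod_cast this
    rw [h4] at h3
    calc ∑ e ∈ Ioo (E - 1) (Q + 1), 18 * (D : ℝ) ^ 2 / ((e ^ 2 : ℕ) : ℝ) =
        18 * (D : ℝ) ^ 2 * ∑ e ∈ Ioo (E - 1) (Q + 1), (((e : ℝ) ^ 2)⁻¹) := by
          rw [Finset.mul_sum]
          refine Finset.sum_congr rfl fun e _ => ?_
          push_cast
          rw [div_eq_mul_inv]
      _ ≤ 18 * (D : ℝ) ^ 2 * (2 / E) := by
          refine mul_le_mul_of_nonneg_left h3 (by positivity)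
      _ = 36 * (D : ℝ) ^ 2 / E := by ring
  have h5 : (((Ioo (E - 1) (Q + 1)).card : ℕ) : ℝ) ≤ Q := by
    rw [Nat.card_Ioo]
    have : Q + 1 - (E - 1) - 1 ≤ Q := by omega
    exact_mod_cast this
  have h6 : (((Ioo (E - 1) (Q + 1)).card : ℕ) : ℝ) * (2 * (2 : ℕ)) ≤ 4 * Q := by
    push_cast
    linarith
  linarith

/-- a set of integers of small diameter -/
lemma card_of_diam (F : Finset ℤ) (L : ℕ) (h : ∀ x ∈ F, ∀ y ∈ F, y - x ≤ L) : F.card ≤ L + 1 := by
  rcases F.eq_empty_or_nonempty with rfl | hne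
  · simp
  · have h1 : F ⊆ Icc (F.min' hne) (F.min' hne + L) := by
      intro x hx
      rw [Finset.mem_Icc]
      refine ⟨F.min'_le x hx, ?_⟩
      have := h _ (F.min'_mem hne) x hx
      linarith
    refine (Finset.card_le_card h1).trans ?_
    rw [Int.card_Icc]
    omega

lemma lf_swap (a b : ℤ) (v : ℤ × ℤ) : lf a b v = lf b a v.swap := by
  unfold lf
  simp only [Prod.fst_swap, Prod.snd_swap]
  ring

lemma nm_swap (v : ℤ × ℤ) : nm v.swap = nm v := by
  unfold nm
  simp only [Prod.fst_swap, Prod.snd_swap]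
  exact max_comm _ _

lemma card_X3_aux {a b : ℤ} (D E : ℕ) (hE : 1 ≤ E) (h0 : b ≠ 0) (hab : a.natAbs ≤ b.natAbs) :
    (X3 a b D E).card ≤ (2 * D + 1) * (2 * D / E + 1) := by
  classical
  have hnm : nm (a, b) = b.natAbs := by
    unfold nm
    exact max_eq_right hab
  have h1 := Finset.card_eq_sum_card_fiberwise (f := fun v : ℤ × ℤ => v.1) (s := X3 a b D E)
    (t := Icc (-(D : ℤ)) D) (by
      intro v hv
      have hv' := Finset.mem_coe.1 hv
      unfold X3 at hv'
      rw [Finset.mem_filter] at hv'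
      have := mem_box.1 hv'.1
      unfold nm at this
      refine Finset.mem_coe.2 (Finset.mem_Icc.2 ?_)
      simp only
      constructor <;> omega)
  rw [h1]
  have h2 : ∀ x ∈ Icc (-(D : ℤ)) D, ((X3 a b D E).filter fun v => v.1 = x).card ≤ 2 * D / E + 1 := by
    intro x _
    have h3 : ((X3 a b D E).filter fun v => v.1 = x).card =
        (((X3 a b D E).filter fun v => v.1 = x).image fun v => v.2).card := by
      rw [Finset.card_image_of_injOn]
      intro v hv w hw hvw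
      have hv' := Finset.mem_coe.1 hv
      have hw' := Finset.mem_coe.1 hw
      rw [Finset.mem_filter] at hv' hw'
      exact Prod.ext (by rw [hv'.2, hw'.2]) hvw
    rw [h3]
    refine card_of_diam _ _ ?_
    intro y hy z hz
    rw [Finset.mem_image] at hy hz
    obtain ⟨v, hv, rfl⟩ := hy
    obtain ⟨w, hw, rfl⟩ := hz
    rw [Finset.mem_filter] at hv hw
    obtain ⟨hv1, hv2⟩ := hv
    obtain ⟨hw1, hw2⟩ := hw
    unfold X3 at hv1 hw1
    rw [Finset.mem_filter, hnm] at hv1 hw1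
    rcases le_total (w.2 - v.2) 0 with hle | hle
    · have : (0 : ℤ) ≤ ((2 * D / E : ℕ) : ℤ) := by positivity
      linarith
    obtain ⟨t, ht⟩ := Int.eq_ofNat_of_zero_le hle
    have hbt : b.natAbs * t ≤ (lf a b v).natAbs + (lf a b w).natAbs := by
      have e1 : b * t = lf a b w - lf a b v := by
        unfold lf
        rw [hv2, hw2, ← ht]
        ring
      have e2 : (b * (t : ℤ)).natAbs = b.natAbs * t := by
        rw [Int.natAbs_mul, Int.natAbs_natCast]
      rw [← e2, e1]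
      omega
    have h5 : b.natAbs * t * E ≤ b.natAbs * (2 * D) := by
      calc b.natAbs * t * E ≤ ((lf a b v).natAbs + (lf a b w).natAbs) * E :=
            Nat.mul_le_mul_right _ hbt
        _ = (lf a b v).natAbs * E + (lf a b w).natAbs * E := by ring
        _ ≤ b.natAbs * D + b.natAbs * D := Nat.add_le_add hv1.2 hw1.2
        _ = _ := by ring
    have h6 : t * E ≤ 2 * D := by
      have hb : 0 < b.natAbs := Int.natAbs_pos.2 h0
      rw [mul_assoc] at h5
      exact Nat.le_of_mul_le_mul_left h5 hb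
    have h7 : t ≤ 2 * D / E := (Nat.le_div_iff_mul_le hE).2 h6
    rw [ht]
    exact_mod_cast h7
  calc ∑ x ∈ Icc (-(D : ℤ)) D, ((X3 a b D E).filter fun v => v.1 = x).card ≤
      ∑ _x ∈ Icc (-(D : ℤ)) D, (2 * D / E + 1) := Finset.sum_le_sum h2
    _ = (2 * D + 1) * (2 * D / E + 1) := by
        rw [Finset.sum_const, Int.card_Icc, smul_eq_mul]
        congr 1
        omega

lemma card_X3 {a b : ℤ} (hab : IsCoprime a b) (D E : ℕ) (hE : 1 ≤ E) :
    (X3 a b D E).card ≤ (2 * D + 1) * (2 * D / E + 1) := by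
  classical
  rcases le_total a.natAbs b.natAbs with h | h
  · refine card_X3_aux D E hE ?_ h
    rintro rfl
    have ha : a.natAbs = 0 := by simpa using h
    have ha0 : a = 0 := Int.natAbs_eq_zero.1 ha
    rw [ha0] at hab
    exact not_isCoprime_zero_zero hab
  · have h1 : (X3 b a D E).card ≤ (2 * D + 1) * (2 * D / E + 1) := by
      refine card_X3_aux D E hE ?_ h
      rintro rfl
      have hb : b.natAbs = 0 := by simpa using h
      have hb0 : b = 0 := Int.natAbs_eq_zero.1 hb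
      rw [hb0] at hab
      exact not_isCoprime_zero_zero hab
    refine le_trans ?_ h1
    refine Finset.card_le_card_of_injOn Prod.swap ?_ (Prod.swap_injective.injOn)
    intro v hv
    have hv' := Finset.mem_coe.1 hv
    unfold X3 at hv'
    rw [Finset.mem_filter] at hv'
    refine Finset.mem_coe.2 ?_
    unfold X3
    rw [Finset.mem_filter]
    refine ⟨mem_box.2 (by rw [nm_swap]; exact mem_box.1 hv'.1), ?_⟩
    rw [← lf_swap]
    have : nm (b, a) = nm (a, b) := nm_swap (a, b)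
    rw [this]
    exact hv'.2

lemma sq_bound {N B C : ℝ} (hN : 0 ≤ N) (hB : 0 ≤ B) (hC : 0 ≤ C) (h : N ^ 2 ≤ B * (N + C)) :
    N ≤ B + Real.sqrt (B * C) := by
  have h1 : 0 ≤ B * C := mul_nonneg hB hC
  have h2 := Real.sq_sqrt h1
  have h3 := Real.sqrt_nonneg (B * C)
  by_contra hlt
  push Not at hlt
  have h4 : B < N := by linarith
  have h5 : Real.sqrt (B * C) < N - B := by linarith
  have h6 : B * C < (N - B) ^ 2 := by
    rw [← h2]
    exact pow_lt_pow_left₀ h5 h3 two_ne_zero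
  nlinarith

lemma card_X4 {a b : ℤ} (hab : IsCoprime a b) {D M τ j : ℕ} (hD : 2 * D < nm (a, b)) (hj : 2 ≤ j)
    (hτ : ∀ w : ℤ × ℤ, nm w ≤ 2 * D → w ≠ 0 → (lf a b w).natAbs.divisors.card ≤ τ) :
    ((X4 a b D M j).card : ℝ) ≤
      (2 * M + 1) + 2 * τ * (4 * D + 1) * Real.sqrt (2 * M + 1) := by
  classical
  have h1 := energy hab (M := M) hD hj hτ (X4 a b D M j) (by
    intro v hv
    unfold X4 at hv
    rw [Finset.mem_filter] at hv
    exact mem_box.1 hv.1) (by
    intro v hv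
    unfold X4 at hv
    rw [Finset.mem_filter] at hv
    exact hv.2)
  have h2 : ((X4 a b D M j).card : ℝ) ^ 2 ≤ (2 * M + 1) *
      ((X4 a b D M j).card + (2 * τ * (4 * D + 1)) ^ 2) := by
    have : ((X4 a b D M j).card : ℝ) ^ 2 ≤ (2 * M + 1) *
      ((X4 a b D M j).card + (4 * D + 1) ^ 2 * (2 * τ) ^ 2) := by exact_mod_cast h1
    refine this.trans (le_of_eq ?_)
    ring
  have h3 := sq_bound (Nat.cast_nonneg _) (by positivity) (by positivity) h2
  refine h3.trans (le_of_eq ?_)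
  have e1 : Real.sqrt ((2 * (M : ℝ) + 1) * (2 * τ * (4 * D + 1)) ^ 2) =
      2 * τ * (4 * D + 1) * Real.sqrt (2 * M + 1) := by
    rw [Real.sqrt_mul (by positivity), Real.sqrt_sq (by positivity), mul_comm]
  rw [e1]

/-- **The deterministic statement.** -/
theorem outside {a b : ℤ} {D E Q M J : ℕ} (hE : 1 ≤ E) (hEQ : E ^ 2 ≤ Q)
    (hDQ : 2 * D ≤ Q) (hJ : 2 * nm (a, b) * D < 2 ^ J) {v : ℤ × ℤ} (hv : nm v ≤ D)
    (hprim : Int.gcd v.1 v.2 = 1) (h2 : v ∉ X2 a b D E Q) (h3 : v ∉ X3 a b D E)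
    (h4 : 2 * D < nm (a, b) → ∀ j, 2 ≤ j → j < J → v ∉ X4 a b D M j) :
    lf a b v ≠ 0 ∧ nm (a, b) * D < (lf a b v).natAbs * E ∧
      ((lf a b v).natAbs ≤ rad (lf a b v).natAbs * E ^ 2 ∨ Q ^ 2 ≤ rad (lf a b v).natAbs ∨
        M * Q ≤ rad (lf a b v).natAbs * E ^ 2) ∧
      (2 * nm (a, b) * D ≤ M * Q ^ 2 → (lf a b v).natAbs ≤ rad (lf a b v).natAbs * E ^ 2) := by
  classical
  have hvbox : v ∈ box D := mem_box.2 hv
  have hv0 : v ≠ 0 := by
    rintro rfl
    simp at hprim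
  have h5 : nm (a, b) * D < (lf a b v).natAbs * E := by
    by_contra hle
    push Not at hle
    apply h3
    unfold X3
    exact Finset.mem_filter.2 ⟨hvbox, hle⟩
  have h0 : lf a b v ≠ 0 := by
    intro h
    rw [h] at h5
    simp at h5
  set n := (lf a b v).natAbs with hn
  have hn0 : n ≠ 0 := Int.natAbs_ne_zero.2 h0
  have hnle : n ≤ 2 * nm (a, b) * D := by
    have h6 : n ≤ (a * v.1).natAbs + (b * v.2).natAbs := by
      rw [hn]
      unfold lf
      exact Int.natAbs_add_le _ _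
    have h7 : (a * v.1).natAbs ≤ nm (a, b) * D := by
      rw [Int.natAbs_mul]
      refine Nat.mul_le_mul (le_max_left _ _) ?_
      unfold nm at hv
      omega
    have h8 : (b * v.2).natAbs ≤ nm (a, b) * D := by
      rw [Int.natAbs_mul]
      refine Nat.mul_le_mul (le_max_right _ _) ?_
      unfold nm at hv
      omega
    calc n ≤ nm (a, b) * D + nm (a, b) * D := by omega
      _ = _ := by ring
  have hNS : NS E Q n := by
    intro e he
    by_contra hcon
    push Not at hcon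
    apply h2
    unfold X2
    refine Finset.mem_filter.2 ⟨hvbox, hv0, by rw [hprim]; norm_num, e, hcon.1, hcon.2, ?_⟩
    rw [← Int.natAbs_dvd_natAbs, Int.natAbs_pow, Int.natAbs_natCast]
    exact he
  -- a large power with a small cofactor is impossible
  have key : ∀ m p j : ℕ, p.Prime → Q < p → 2 ≤ j → m ≠ 0 → n = m * p ^ j → M < m := by
    intro m p j hp hpQ hj hm hnm
    by_contra hle
    push Not at hle
    have h9 : p ^ j ≤ n := by
      rw [hnm]
      exact Nat.le_mul_of_pos_left _ (Nat.pos_of_ne_zero hm)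
    by_cases hH : 2 * D < nm (a, b)
    · have hjJ : j < J := by
        have h10 : 2 ^ j ≤ p ^ j := Nat.pow_le_pow_left hp.two_le j
        exact (Nat.pow_lt_pow_iff_right (by norm_num : 1 < 2)).1 (by omega)
      apply h4 hH j hj hjJ
      unfold X4
      rw [Finset.mem_filter]
      refine ⟨hvbox, ?_⟩
      rcases le_total 0 (lf a b v) with hs | hs
      · refine ⟨m, p, by exact_mod_cast hm, by rw [Nat.abs_cast]; exact_mod_cast hle, ?_⟩
        have : (n : ℤ) = lf a b v := by rw [hn]; exact Int.natAbs_of_nonneg hs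
        rw [← this, hnm]
        push_cast
        ring
      · refine ⟨-m, p, by
          have : (m : ℤ) ≠ 0 := by exact_mod_cast hm
          exact neg_ne_zero.2 this, by rw [abs_neg, Nat.abs_cast]; exact_mod_cast hle, ?_⟩
        have : (n : ℤ) = -lf a b v := by rw [hn]; omega
        have e : lf a b v = -(n : ℤ) := by linarith
        rw [e, hnm]
        push_cast
        ring
    · push Not at hH
      have h10 : p ^ 2 ≤ p ^ j := Nat.pow_le_pow_right hp.pos hj
      have h11 : n ≤ (2 * D) * (2 * D) := by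
        calc n ≤ 2 * nm (a, b) * D := hnle
          _ ≤ 2 * (2 * D) * D := Nat.mul_le_mul_right _ (Nat.mul_le_mul_left _ hH)
          _ = _ := by ring
      have h12 : p * p ≤ (2 * D) * (2 * D) := by
        rw [← sq]
        omega
      have h13 : p ≤ 2 * D := Nat.mul_self_le_mul_self_iff.1 h12
      omega
  refine ⟨h0, h5, ?_, ?_⟩
  · rcases struct2 hE hEQ hn0 hNS with h6 | h6 | ⟨m, p, j, hp, hpQ, hj, hm, hnm, hrad⟩
    · exact Or.inl h6
    · exact Or.inr (Or.inl h6)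
    · refine Or.inr (Or.inr (le_trans ?_ hrad))
      exact Nat.mul_le_mul (key m p j hp hpQ hj hm hnm).le hpQ.le
  · intro hbig
    rcases struct1 hE hEQ hn0 hNS with h6 | ⟨p, hp, hpQ, hpn⟩
    · exact h6
    · exfalso
      obtain ⟨m, hm⟩ := hpn
      have hm0 : m ≠ 0 := by
        rintro rfl
        rw [mul_zero] at hm
        exact hn0 hm
      have h7 := key m p 2 hp hpQ le_rfl hm0 (by rw [hm]; ring)
      have h8 : M * Q ^ 2 < m * p ^ 2 := by
        have hp2 : Q ^ 2 < p ^ 2 := Nat.pow_lt_pow_left hpQ two_ne_zero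
        have hp3 : 0 < p ^ 2 := Nat.pow_pos hp.pos
        calc M * Q ^ 2 ≤ M * p ^ 2 := Nat.mul_le_mul_left _ hp2.le
          _ < m * p ^ 2 := Nat.mul_lt_mul_of_pos_right h7 hp3
      have h9 : n = m * p ^ 2 := by rw [hm]; ring
      omega

end Pool.Agent.W5h18.EP
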